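import Pool.Agent.Lib.TWCY.Der

/-!
# CT, j = 1: the relations (a*), (b*) at the right translates

`F` closed, `z ∈ lim_0 F`, `T c`, `c ∈ k²`, isometries with `T c F ≤ F` and
`T c z - z - Z(c) ∈ O_0`, `Φ` an isometry with `Φ F ≤ F`, `Φ z - z - Za ∈ O_0`, `Za ∈ F`;
`L = (L 0, L 1)` polynomials over `F`; `ζ = Za + (Φ Z) - Z(L)`.

* `ast_a`: `d` an `F`-linear map of norm `≤ 0`, zero on `F`: `(d Z)(L) + d ζ` is integral;
* `ast_b`: `D^#` an `F ^ p`-linear map of norm `≤ 0` which extends `D`, a tie of `z`: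
  `Γ(L) + Dx P(ζ) + e D^# ζ + ∑ e_i D (L_i)` is integral, `Γ = e D^# Z + Dx P(Z) + D R`;
* `ast_g`: `Γ` is integral; `ast_G`: `Γ(L)` is `G(L)` modulo integral values, `G = res Γ`.
-/

set_option autoImplicit false

open MvPolynomial

namespace Pool.Agent.TWCU9

open Pool.Agent.H15JM (RVal)
open Pool.Agent.LU1 (VPos)
open Pool.Agent.D2 (Ctx0)
open Pool.Agent.TWM
open Pool.Agent.TWS (IsoE)
open Pool.Agent.TWLY
open Pool.Agent.TWCY

universe u

variable {k Ω : Type u} [Field k] [Field Ω] [Algebra k Ω]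

/-! ### Data -/

/-- An `F`-linear map of norm `≤ 0`, zero on `F`. -/
structure FLn (v : RVal Ω) (F : IntermediateField k Ω) (d : Ω → Ω) : Prop where
  add : ∀ x y, d (x + y) = d x + d y
  lin : ∀ f ∈ F, ∀ y, d (f * y) = f * d y
  zero : ∀ f ∈ F, d f = 0
  norm : ∀ (y : Ω) (r : ℝ), v.Ge r y → v.Ge r (d y)

/-- An `F ^ p`-linear map of norm `≤ 0` which extends `D`. -/
structure FSh (p : ℕ) (v : RVal Ω) (F : IntermediateField k Ω) (D Ds : Ω → Ω) : Prop where
  add : ∀ x y, Ds (x + y) = Ds x + Ds y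
  lin : ∀ f ∈ F, ∀ y, Ds (f ^ p * y) = f ^ p * Ds y
  ext : ∀ f ∈ F, Ds f = D f
  norm : ∀ (y : Ω) (r : ℝ), v.Ge r y → v.Ge r (Ds y)

/-- The frame: the isometries `T c` and `Φ` at the limit `z`. -/
structure RT (v : RVal Ω) (F : IntermediateField k Ω) (T : (Fin 2 → k) → Ω →ₐ[k] Ω)
    (Φ : Ω →ₐ[k] Ω) (z : Ω) (Z : MvPolynomial (Fin 2) Ω) (Za : Ω)
    (L : Fin 2 → MvPolynomial (Fin 2) Ω) : Prop where
  isoT : ∀ c, IsoE v v (T c)
  memT : ∀ c, ∀ f ∈ F, T c f ∈ F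
  isoP : IsoE v v Φ
  memP : ∀ f ∈ F, Φ f ∈ F
  zlim : Lim v F 0 z
  jet : ∀ c, v.Ge 0 (T c z - z - eval (pt c) Z)
  ZaF : Za ∈ F
  mov : v.Ge 0 (Φ z - z - Za)
  LF : ∀ i g, coeff g (L i) ∈ F

/-- `ζ = Za + (Φ Z) - Z(L)`. -/
noncomputable def zet (Φ : Ω →ₐ[k] Ω) (Z : MvPolynomial (Fin 2) Ω) (Za : Ω)
    (L : Fin 2 → MvPolynomial (Fin 2) Ω) : MvPolynomial (Fin 2) Ω :=
  C Za + MvPolynomial.map (Φ : Ω →+* Ω) Z - bind₁ L Z

/-- the point `L(c)` -/
noncomputable def Lp (L : Fin 2 → MvPolynomial (Fin 2) Ω) (c : Fin 2 → k) : Fin 2 → Ω :=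
  fun i => eval (pt c) (L i)

variable {v : RVal Ω} {F : IntermediateField k Ω} {T : (Fin 2 → k) → Ω →ₐ[k] Ω}
  {Φ : Ω →ₐ[k] Ω} {z : Ω} {Z : MvPolynomial (Fin 2) Ω} {Za : Ω}
  {L : Fin 2 → MvPolynomial (Fin 2) Ω}

/-! ### Coefficientwise maps -/

theorem coeff_Dc' {d : Ω → Ω} (h0 : d 0 = 0) (f : MvPolynomial (Fin 2) Ω) (g : Ex) :
    coeff g (Dc d f) = d (coeff g f) := by
  classical
  unfold Dc
  rw [coeff_sum]
  by_cases hg : g ∈ f.support
  · rw [Finset.sum_eq_single_of_mem g hg, coeff_monomial, if_pos rfl]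
    intro b _ hb
    rw [coeff_monomial, if_neg hb]
  · rw [Finset.sum_eq_zero, notMem_support_iff.1 hg, h0]
    intro b hb
    rw [coeff_monomial, if_neg]
    rintro rfl
    exact hg hb

theorem add_sum {d : Ω → Ω} (hadd : ∀ x y, d (x + y) = d x + d y) {ι : Type*} (S : Finset ι)
    (f : ι → Ω) : d (∑ i ∈ S, f i) = ∑ i ∈ S, d (f i) := by
  classical
  have h0 : d 0 = 0 := by
    have h := hadd 0 0
    rw [add_zero] at h
    exact left_eq_add.1 h
  induction S using Finset.induction_on with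
  | empty => rw [Finset.sum_empty, Finset.sum_empty, h0]
  | insert i S hi ih => rw [Finset.sum_insert hi, Finset.sum_insert hi, hadd, ih]

theorem add_zero' {d : Ω → Ω} (hadd : ∀ x y, d (x + y) = d x + d y) : d 0 = 0 := by
  have h := hadd 0 0
  rw [add_zero] at h
  exact left_eq_add.1 h

theorem add_sub' {d : Ω → Ω} (hadd : ∀ x y, d (x + y) = d x + d y) (x y : Ω) :
    d (x - y) = d x - d y := by
  have h := hadd (x - y) y
  rw [sub_add_cancel] at h
  rw [h, add_sub_cancel_right]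

/-- Coefficientwise additive maps: the value at a point whose monomials are scalars of `d`. -/
theorem eval_Dc' {d : Ω → Ω} (hadd : ∀ x y, d (x + y) = d x + d y)
    {f : MvPolynomial (Fin 2) Ω} {x : Fin 2 → Ω}
    (hlin : ∀ g ∈ f.support, ∀ y, d ((g.prod fun i e => x i ^ e) * y) =
      (g.prod fun i e => x i ^ e) * d y) :
    eval x (Dc d f) = d (eval x f) := by
  unfold Dc
  rw [map_sum]
  conv_rhs => rw [f.as_sum, map_sum]
  rw [add_sum hadd]
  refine Finset.sum_congr rfl fun m hm => ?_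
  rw [eval_monomial, eval_monomial, mul_comm, mul_comm (coeff m f), hlin m hm]

theorem prod_pt (g : Ex) (c : Fin 2 → k) : (g.prod fun i e => pt (Ω := Ω) c i ^ e) =
    algebraMap k Ω (g.prod fun i e => c i ^ e) := by
  rw [Finsupp.prod, Finsupp.prod, map_prod]
  refine Finset.prod_congr rfl fun i _ => ?_
  rw [map_pow]
  rfl

theorem prod_mem' {F : IntermediateField k Ω} {x : Fin 2 → Ω} (hx : ∀ i, x i ∈ F) (g : Ex) :
    (g.prod fun i e => x i ^ e) ∈ F := by
  rw [Finsupp.prod]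
  exact prod_mem fun i _ => pow_mem (hx i) _

/-! ### The jets -/

theorem eval_b1 (x : Fin 2 → Ω) (L : Fin 2 → MvPolynomial (Fin 2) Ω) (Q : MvPolynomial (Fin 2) Ω) :
    eval x (bind₁ L Q) = eval (fun i => eval x (L i)) Q := by
  rw [hom_bind₁]
  have h1 : (eval x).comp (C : Ω →+* MvPolynomial (Fin 2) Ω) = RingHom.id Ω :=
    RingHom.ext fun a => eval_C a
  rw [h1]
  rfl

theorem eval_zet (c : Fin 2 → k) : eval (pt c) (zet Φ Z Za L) =
    Za + Φ (eval (pt c) Z) - eval (Lp L c) Z := by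
  have h1 : eval (pt c) (MvPolynomial.map (Φ : Ω →+* Ω) Z) = Φ (eval (pt c) Z) := by
    rw [eval_map]
    have h2 : (pt c : Fin 2 → Ω) = fun i => Φ (pt c i) := by
      funext i
      exact (Φ.commutes (c i)).symm
    nth_rw 1 [h2]
    exact (eval₂_comp (Φ : Ω →+* Ω) (pt c) Z).symm
  have h3 : eval (pt c) (bind₁ L Z) = eval (Lp L c) Z := eval_b1 _ L Z
  unfold zet
  rw [map_sub, map_add, eval_C, h1, h3]

theorem RT.Lp_mem (h : RT v F T Φ z Z Za L) (c : Fin 2 → k) (i : Fin 2) : Lp L c i ∈ F :=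
  eval_pt_mem (h.LF i) c

/-- The jet of `Φ T`. -/
theorem RT.jet2 (h : RT v F T Φ z Z Za L) (c : Fin 2 → k) :
    v.Ge 0 (Φ (T c z) - z - (eval (Lp L c) Z + eval (pt c) (zet Φ Z Za L))) := by
  rw [eval_zet]
  have e : Φ (T c z) - z - (eval (Lp L c) Z + (Za + Φ (eval (pt c) Z) - eval (Lp L c) Z)) =
      Φ (T c z - z - eval (pt c) Z) + (Φ z - z - Za) := by
    rw [map_sub, map_sub]
    ring
  rw [e]
  exact (IsoE.ge' h.isoP (h.jet c)).add h.mov

/-- The jet at the approximations. -/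
theorem RT.jet3 (h : RT v F T Φ z Z Za L) (c : Fin 2 → k) {ε : ℝ} (hε : 0 < ε) {θ : Ω}
    (hθ : v.Ge (-ε) (z - θ)) :
    v.Ge (-ε) (eval (Lp L c) Z + eval (pt c) (zet Φ Z Za L) - (Φ (T c θ) - θ)) := by
  have h1 := (h.jet2 c).mono (by linarith : -ε ≤ 0)
  have e : eval (Lp L c) Z + eval (pt c) (zet Φ Z Za L) - (Φ (T c θ) - θ) =
      Φ (T c (z - θ)) - (z - θ) -
        (Φ (T c z) - z - (eval (Lp L c) Z + eval (pt c) (zet Φ Z Za L))) := by
    rw [map_sub, map_sub]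
    ring
  rw [e]
  exact ((IsoE.ge' h.isoP (IsoE.ge' (h.isoT c) hθ)).sub hθ).sub h1

/-! ### (a*) -/

section A

variable {d : Ω → Ω}

theorem FLn.smul (hd : FLn v F d) (c : k) (y : Ω) :
    d (algebraMap k Ω c * y) = algebraMap k Ω c * d y := hd.lin _ (F.algebraMap_mem c) y

/-- (a*) at a point. -/
theorem RT.ast_a_pt (h : RT v F T Φ z Z Za L) (hd : FLn v F d) (c : Fin 2 → k) :
    v.Ge 0 (eval (pt c) (bind₁ L (Dc d Z) + Dc d (zet Φ Z Za L))) := by
  have h1 : eval (pt c) (bind₁ L (Dc d Z)) = d (eval (Lp L c) Z) := by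
    rw [eval_b1]
    exact eval_Dc' hd.add fun g _ y => hd.lin _ (prod_mem' (h.Lp_mem c) g) y
  have h2 : eval (pt c) (Dc d (zet Φ Z Za L)) = d (eval (pt c) (zet Φ Z Za L)) :=
    eval_Dc' hd.add fun g _ y => by
      rw [prod_pt]
      exact hd.smul _ y
  rw [map_add, h1, h2, ← hd.add]
  refine ge_zero_of_eps fun ε hε => ?_
  obtain ⟨θ, hθ, h3⟩ := Lim.neg_eps h.zlim hε
  have h4 := hd.norm _ _ (h.jet3 c hε h3)
  rw [add_sub' hd.add, hd.zero _ (sub_mem (h.memP _ (h.memT c θ hθ)) hθ), sub_zero] at h4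
  exact h4

/-- **(a*)** -/
theorem RT.ast_a [Infinite k] (hk : Ctx0 k v) (h : RT v F T Φ z Z Za L) (hd : FLn v F d)
    (g : Ex) : v.Ge 0 (coeff g (bind₁ L (Dc d Z)) + d (coeff g (zet Φ Z Za L))) := by
  have h1 := ge_coeff hk (h.ast_a_pt hd) g
  rwa [coeff_add, coeff_Dc' (add_zero' hd.add)] at h1

/-- `d Z` is integral. -/
theorem RT.ast_a0 [Infinite k] (hk : Ctx0 k v) (h : RT v F T Φ z Z Za L) (hd : FLn v F d)
    (g : Ex) : v.Ge 0 (coeff g (Dc d Z)) := by
  refine ge_coeff hk (fun c => ?_) g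
  have h2 : eval (pt c) (Dc d Z) = d (eval (pt c) Z) :=
    eval_Dc' hd.add fun g _ y => by
      rw [prod_pt]
      exact hd.smul _ y
  rw [h2]
  refine ge_zero_of_eps fun ε hε => ?_
  obtain ⟨θ, hθ, h3⟩ := Lim.neg_eps h.zlim hε
  have h4 : v.Ge (-ε) (eval (pt c) Z - (T c θ - θ)) := by
    have e : eval (pt c) Z - (T c θ - θ) = T c (z - θ) - (z - θ) -
        (T c z - z - eval (pt c) Z) := by
      rw [map_sub]
      ring
    rw [e]
    exact ((IsoE.ge' (h.isoT c) h3).sub h3).sub ((h.jet c).mono (by linarith))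
  have h5 := hd.norm _ _ h4
  rwa [add_sub' hd.add, hd.zero _ (sub_mem (h.memT c θ hθ) hθ), sub_zero] at h5

end A

/-! ### (b*) -/

section B

variable {p : ℕ} [hp : Fact p.Prime] [CharP Ω p] {D Ds : Ω → Ω} {x a₀ : Ω}
  {e : k} {κ : ℕ → k} {t : ℕ} {R : MvPolynomial (Fin 2) Ω} {l : MvPolynomial (Fin 2) k}

/-- The tie at `T c`, `Φ`. -/
structure RB (p : ℕ) (v : RVal Ω) (F : IntermediateField k Ω) (T : (Fin 2 → k) → Ω →ₐ[k] Ω)
    (Φ : Ω →ₐ[k] Ω) (z : Ω) (Z : MvPolynomial (Fin 2) Ω) (L : Fin 2 → MvPolynomial (Fin 2) Ω)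
    (x a₀ : Ω) (e : k) (κ : ℕ → k) (t : ℕ) (R : MvPolynomial (Fin 2) Ω)
    (l : MvPolynomial (Fin 2) k) : Prop where
  xF : x ∈ F
  xT : ∀ c, T c x = x
  xP : ∀ θ ∈ F, v.Ge (-1) (z - θ) → v.Ge 0 ((Φ x - x) * PP p κ t θ)
  aF : a₀ ∈ F
  RF : ∀ g, coeff g R ∈ F
  aT : ∀ c, v.Ge 0 (Φ (T c a₀) - a₀ - eval (Lp L c) R)
  ZD : e ≠ 0 → ∀ g, coeff g Z ≠ 0 → ∀ i, p ∣ g i
  lin : ∀ g, coeff g l ≠ 0 → ∃ i, g = Finsupp.single i 1
  RD : ∀ g, ¬ (∀ i, p ∣ g i) → coeff g R = algebraMap k Ω (coeff g l)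
  tie : ∀ ε : ℝ, 0 < ε → ∃ θ ∈ F, v.Ge (-ε) (z - θ) ∧
    ∃ h ∈ F, v.Ge (-ε) (algebraMap k Ω e * θ + x * PP p κ t θ + a₀ - h ^ p)

omit hp [CharP Ω p] in
/-- A monomial with exponents divisible by `p` is a `p`-th power. -/
theorem exists_pow_of_dvd {y : Fin 2 → Ω} (hy : ∀ i, y i ∈ F) {g : Ex} (hg : ∀ i, p ∣ g i) :
    ∃ b ∈ F, (g.prod fun i e => y i ^ e) = b ^ p := by
  refine ⟨g.prod fun i e => y i ^ (e / p), ?_, ?_⟩
  · rw [Finsupp.prod]
    exact prod_mem fun i _ => pow_mem (hy i) _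
  · rw [Finsupp.prod, Finsupp.prod, ← Finset.prod_pow]
    refine Finset.prod_congr rfl fun i _ => ?_
    rw [← pow_mul, Nat.div_mul_cancel (hg i)]

/-- `D` of the value of `R` at a point of `F²`. -/
theorem D_eval (hD : Drv v F D) {y : Fin 2 → Ω} (hy : ∀ i, y i ∈ F) (hRF : ∀ g, coeff g R ∈ F)
    (hlin : ∀ g, coeff g l ≠ 0 → ∃ i, g = Finsupp.single i 1)
    (hRD : ∀ g, ¬ (∀ i, p ∣ g i) → coeff g R = algebraMap k Ω (coeff g l)) :
    D (eval y R) = eval y (Dc D R) +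
      ∑ i, algebraMap k Ω (coeff (Finsupp.single i 1) l) * D (y i) := by
  classical
  have hmF : ∀ g : Ex, (g.prod fun i e => y i ^ e) ∈ F := prod_mem' hy
  -- the terms
  have hterm : ∀ g : Ex, D (eval y (monomial g (coeff g R))) =
      eval y (monomial g (D (coeff g R))) +
        ∑ i, if g = Finsupp.single i 1 then algebraMap k Ω (coeff g l) * D (y i) else 0 := by
    intro g
    rw [eval_monomial, eval_monomial, hD.mul _ (hRF g) _ (hmF g)]
    by_cases hg : ∀ i, p ∣ g i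
    · obtain ⟨b, hb, h1⟩ := exists_pow_of_dvd hy hg
      have h2 : ∀ i : Fin 2, g ≠ Finsupp.single i 1 := by
        intro i h3
        have h4 := hg i
        rw [h3, Finsupp.single_eq_same, Nat.dvd_one] at h4
        exact hp.out.one_lt.ne' h4
      rw [h1, hD.map_pow_char hb, mul_zero, zero_add, Finset.sum_eq_zero fun i _ => if_neg (h2 i),
        add_zero, mul_comm]
    · rw [hRD g hg, hD.alg, mul_zero, add_zero]
      by_cases h1 : coeff g l = 0
      · rw [h1, _root_.map_zero, zero_mul, zero_mul, zero_add]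
        refine (Finset.sum_eq_zero fun i _ => ?_).symm
        split_ifs
        · rw [zero_mul]
        · rfl
      · obtain ⟨i, rfl⟩ := hlin g h1
        have h3 : ((Finsupp.single i 1 : Ex).prod fun i e => y i ^ e) = y i := by
          rw [Finsupp.prod_single_index, pow_one]
          exact pow_zero _
        rw [zero_mul, zero_add, h3, Finset.sum_eq_single_of_mem i (Finset.mem_univ i) fun j _ hj => if_neg fun h2 => hj
            (Finsupp.single_left_injective one_ne_zero h2).symm, if_pos rfl]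
  have h1 : D (eval y R) = ∑ g ∈ R.support, D (eval y (monomial g (coeff g R))) := by
    conv_lhs => rw [R.as_sum, map_sum]
    rw [hD.map_sum]
    intro g _
    rw [eval_monomial]
    exact mul_mem (hRF g) (hmF g)
  rw [h1, Finset.sum_congr rfl fun g _ => hterm g, Finset.sum_add_distrib]
  congr 1
  · unfold Dc
    rw [map_sum]
  · rw [Finset.sum_comm]
    refine Finset.sum_congr rfl fun i _ => ?_
    rw [Finset.sum_ite_eq']
    split_ifs with h2
    · rfl
    · have h3 : coeff (Finsupp.single i 1) R = 0 := notMem_support_iff.1 h2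
      have h4 : ¬ ∀ j, p ∣ (Finsupp.single i 1 : Ex) j := by
        intro h5
        have h6 := h5 i
        rw [Finsupp.single_eq_same, Nat.dvd_one] at h6
        exact hp.out.one_lt.ne' h6
      rw [hRD _ h4] at h3
      rw [h3, zero_mul]

/-- `Γ = e D^# Z + Dx P(Z) + D R`. -/
noncomputable def Gam (p : ℕ) (D Ds : Ω → Ω) (x : Ω) (e : k) (κ : ℕ → k) (t : ℕ)
    (Z R : MvPolynomial (Fin 2) Ω) : MvPolynomial (Fin 2) Ω :=
  C (algebraMap k Ω e) * Dc Ds Z + C (D x) * PP p κ t Z + Dc D R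

/-- The error: `Dx P(ζ) + e D^# ζ + ∑ l_i D (L_i)`. -/
noncomputable def Err (p : ℕ) (D Ds : Ω → Ω) (x : Ω) (e : k) (κ : ℕ → k) (t : ℕ)
    (ζ : MvPolynomial (Fin 2) Ω) (l : MvPolynomial (Fin 2) k)
    (L : Fin 2 → MvPolynomial (Fin 2) Ω) : MvPolynomial (Fin 2) Ω :=
  C (D x) * PP p κ t ζ + C (algebraMap k Ω e) * Dc Ds ζ +
    ∑ i, C (algebraMap k Ω (coeff (Finsupp.single i 1) l)) * Dc D (L i)

omit [CharP Ω p] in
/-- `D^#` is `k`-linear. -/
theorem FSh.smul [IsAlgClosed k] (hDs : FSh p v F D Ds) (c : k) (y : Ω) :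
    Ds (algebraMap k Ω c * y) = algebraMap k Ω c * Ds y := by
  obtain ⟨b, hb⟩ := IsAlgClosed.exists_pow_nat_eq c hp.out.pos
  rw [← hb, map_pow]
  exact hDs.lin _ (F.algebraMap_mem b) y

omit hp [CharP Ω p] in
theorem ge_mul_iso {G : Ω →ₐ[k] Ω} (hG : IsoE v v G) {a b : Ω} (h : v.Ge 0 (a * b)) :
    v.Ge 0 (a * G b) := by
  intro h0
  have ha := left_ne_zero_of_mul h0
  have hb' := right_ne_zero_of_mul h0
  have hb : b ≠ 0 := by
    rintro rfl
    exact hb' (_root_.map_zero G)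
  rw [v.map_mul ha hb', hG.val b hb, ← v.map_mul ha hb]
  exact h (mul_ne_zero ha hb)

/-- (b*) at a point. -/
theorem RT.ast_b_pt [CharP k p] [IsAlgClosed k] (hk : Ctx0 k v) (h : RT v F T Φ z Z Za L)
    (hB : RB p v F T Φ z Z L x a₀ e κ t R l) (hD : Drv v F D) (hx : v.Ge 0 (D x))
    (hDs : FSh p v F D Ds) (c : Fin 2 → k) :
    v.Ge 0 (eval (pt c) (bind₁ L (Gam p D Ds x e κ t Z R) +
      Err p D Ds x e κ t (zet Φ Z Za L) l L)) := by
  have hp0 : (0 : ℝ) < p ^ (t + 1) := by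
    have : (0 : ℝ) < p := by exact_mod_cast hp.out.pos
    positivity
  have hLF := h.Lp_mem c
  set ζ := zet Φ Z Za L with hζ
  set ZL := eval (Lp L c) Z with hZL
  set ζc := eval (pt c) ζ with hζc
  -- the value
  have hval : eval (pt c) (bind₁ L (Gam p D Ds x e κ t Z R) + Err p D Ds x e κ t ζ l L) =
      algebraMap k Ω e * (Ds ZL + Ds ζc) + D x * PP p κ t (ZL + ζc) +
        D (eval (Lp L c) R) := by
    have h1 : algebraMap k Ω e * eval (Lp L c) (Dc Ds Z) = algebraMap k Ω e * Ds ZL := by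
      by_cases he : e = 0
      · rw [he, _root_.map_zero, zero_mul, zero_mul]
      · rw [eval_Dc' hDs.add fun g hg y => ?_]
        obtain ⟨b, hb, h1⟩ := exists_pow_of_dvd hLF (hB.ZD he g (mem_support_iff.1 hg))
        rw [h1]
        exact hDs.lin b hb y
    have h2 : eval (pt c) (Dc Ds ζ) = Ds ζc :=
      eval_Dc' hDs.add fun g _ y => by
        rw [prod_pt]
        exact hDs.smul _ y
    have h3 : eval (Lp L c) (PP p κ t Z) = PP p κ t ZL := by
      unfold PP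
      rw [map_sum]
      refine Finset.sum_congr rfl fun i _ => ?_
      rw [map_mul, map_pow]
      congr 1
      rw [IsScalarTower.algebraMap_apply k Ω (MvPolynomial (Fin 2) Ω), algebraMap_eq, eval_C]
    have h4 := D_eval hD hLF hB.RF hB.lin hB.RD
    have h5 : ∀ i, eval (pt c) (Dc D (L i)) = D (Lp L c i) := fun i => eval_Dc hD (h.LF i) c
    have h6 : eval (pt c) (∑ i, C (algebraMap k Ω (coeff (Finsupp.single i 1) l)) * Dc D (L i)) =
        ∑ i, algebraMap k Ω (coeff (Finsupp.single i 1) l) * D (Lp L c i) := by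
      rw [map_sum]
      refine Finset.sum_congr rfl fun i _ => ?_
      rw [map_mul, eval_C, h5]
    rw [map_add, eval_b1]
    unfold Gam Err
    change eval (Lp L c) _ + _ = _
    rw [map_add, map_add, map_add, map_add, map_mul, map_mul, map_mul, map_mul, eval_C, eval_C,
      eval_C, eval_C, h1, h2, h3, h6, eval_PP, h4, PP_add]
    ring
  rw [hval]
  refine ge_zero_of_eps' hp0 fun ε₀ hε₀ => ?_
  set ε := min ε₀ 1 with hεdef
  have hε : 0 < ε := lt_min hε₀ one_pos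
  obtain ⟨θ, hθ, h1, g, hg, h2⟩ := hB.tie ε hε
  set y := Φ (T c θ) - θ with hy
  have hyF : y ∈ F := sub_mem (h.memP _ (h.memT c θ hθ)) hθ
  set gp := Φ (T c g) - g with hgp
  have hgF : gp ∈ F := sub_mem (h.memP _ (h.memT c g hg)) hg
  set a := Φ (T c a₀) - a₀ with ha
  have haF : a ∈ F := sub_mem (h.memP _ (h.memT c a₀ hB.aF)) hB.aF
  set ξ := (Φ x - x) * PP p κ t (Φ (T c θ)) with hξ
  have hξF : ξ ∈ F := mul_mem (sub_mem (h.memP _ hB.xF) hB.xF) (PP_mem (h.memP _ (h.memT c θ hθ)))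
  have hξ0 : v.Ge 0 ξ := by
    have h3 := hB.xP θ hθ (h1.mono (by linarith [min_le_right ε₀ (1 : ℝ)]))
    have h4 := ge_mul_iso h.isoP (ge_mul_iso (h.isoT c) h3)
    rwa [PP_map, PP_map] at h4
  have hPPF : PP p κ t y ∈ F := PP_mem hyF
  have hm1 : algebraMap k Ω e * y ∈ F := mul_mem (F.algebraMap_mem _) hyF
  have hm2 : x * PP p κ t y ∈ F := mul_mem hB.xF hPPF
  set Q := algebraMap k Ω e * y + x * PP p κ t y + ξ + a - gp ^ p with hQ
  have hQ1 : v.Ge (-ε) Q := by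
    have e1 : Q = Φ (T c (algebraMap k Ω e * θ + x * PP p κ t θ + a₀ - g ^ p)) -
        (algebraMap k Ω e * θ + x * PP p κ t θ + a₀ - g ^ p) := by
      rw [hQ, hy, hgp, ha, hξ, sub_pow_char, PP_sub]
      simp only [map_sub, map_add, map_mul, map_pow, AlgHom.commutes, PP_map, hB.xT c]
      ring
    rw [e1]
    exact (IsoE.ge' h.isoP (IsoE.ge' (h.isoT c) h2)).sub h2
  have hs1 := add_mem hm1 hm2
  have hs2 := add_mem hs1 hξF
  have hs3 := add_mem hs2 haF
  have hQF : Q ∈ F := sub_mem hs3 (pow_mem hgF p)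
  have hDQ := hD.norm Q hQF _ hQ1
  have e2 : D Q = algebraMap k Ω e * D y + D x * PP p κ t y + D ξ + D a := by
    rw [hQ, hD.map_sub hs3 (pow_mem hgF p), hD.map_pow_char hgF, sub_zero, hD.add _ hs2 _ haF,
      hD.add _ hs1 _ hξF, hD.add _ hm1 _ hm2, hD.map_smul _ hyF, hD.mul x hB.xF _ hPPF,
      hD.map_PP hyF, mul_zero, zero_add, mul_comm (PP p κ t y)]
  have hRF : eval (Lp L c) R ∈ F := eval_mem' hB.RF hLF
  have h3 : v.Ge 0 (D a - D (eval (Lp L c) R)) := by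
    rw [← hD.map_sub haF hRF]
    exact hD.norm _ (sub_mem haF hRF) _ (hB.aT c)
  have h4 := h.jet3 c hε h1
  have h5 := hDs.norm _ _ h4
  rw [add_sub' hDs.add, hDs.add, hDs.ext y hyF] at h5
  have h6 := ge_PP (p := p) (κ := κ) (t := t) hk hε h4
  rw [PP_sub] at h6
  have hle : -(p ^ (t + 1) * ε) ≤ -ε := by
    have : (1 : ℝ) ≤ p ^ (t + 1) := by
      have hp1 : (1 : ℝ) ≤ p := by exact_mod_cast hp.out.one_lt.le
      exact one_le_pow₀ hp1
    nlinarith
  have hle0 : -(p ^ (t + 1) * ε) ≤ 0 := by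
    have := mul_pos hp0 hε
    linarith
  have h7 := (hk.ge e).mul h5
  have h8 := hx.mul h6
  rw [zero_add] at h7 h8
  have h9 := hD.norm ξ hξF _ hξ0
  have h10 := ((((hDQ.mono hle).sub (h9.mono hle0)).sub (h3.mono hle0)).add (h7.mono hle)).add h8
  have h11 : -(p ^ (t + 1) * ε₀) ≤ -(p ^ (t + 1) * ε) := by
    have := mul_le_mul_of_nonneg_left (min_le_left ε₀ (1 : ℝ)) hp0.le
    linarith
  have h12 := h10.mono h11
  have e3 : algebraMap k Ω e * (Ds ZL + Ds ζc) + D x * PP p κ t (ZL + ζc) +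
      D (eval (Lp L c) R) = D Q - D ξ - (D a - D (eval (Lp L c) R)) +
        algebraMap k Ω e * (Ds ZL + Ds ζc - D y) +
        D x * (PP p κ t (ZL + ζc) - PP p κ t y) := by
    rw [e2]
    ring
  rw [e3]
  exact h12

/-- **(b*)** -/
theorem RT.ast_b [CharP k p] [IsAlgClosed k] (hk : Ctx0 k v) (h : RT v F T Φ z Z Za L)
    (hB : RB p v F T Φ z Z L x a₀ e κ t R l) (hD : Drv v F D) (hx : v.Ge 0 (D x))
    (hDs : FSh p v F D Ds) (g : Ex) :
    v.Ge 0 (coeff g (bind₁ L (Gam p D Ds x e κ t Z R) +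
      Err p D Ds x e κ t (zet Φ Z Za L) l L)) :=
  ge_coeff hk (h.ast_b_pt hk hB hD hx hDs) g

/-- **`Γ` is integral.** -/
theorem gam_ge [CharP k p] [IsAlgClosed k] (hk : Ctx0 k v) (h : RT v F T Φ z Z Za L)
    (hB : RB p v F T (AlgHom.id k Ω) z Z X x a₀ e κ t R l) (hD : Drv v F D) (hx : v.Ge 0 (D x))
    (hDs : FSh p v F D Ds) (g : Ex) : v.Ge 0 (coeff g (Gam p D Ds x e κ t Z R)) := by
  have hXF : ∀ (i : Fin 2) (g : Ex), coeff g (X i : MvPolynomial (Fin 2) Ω) ∈ F := by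
    intro i g
    rw [coeff_X]
    split_ifs
    · exact one_mem _
    · exact zero_mem _
  have h' : RT v F T (AlgHom.id k Ω) z Z 0 X :=
    { isoT := h.isoT
      memT := h.memT
      isoP := ⟨fun _ _ => rfl⟩
      memP := fun _ hf => hf
      zlim := h.zlim
      jet := h.jet
      ZaF := zero_mem _
      mov := by
        rw [AlgHom.id_apply, sub_self, sub_zero]
        exact RVal.Ge.zero
      LF := hXF }
  have h1 := h'.ast_b hk hB hD hx hDs g
  have h2 : zet (AlgHom.id k Ω) Z 0 X = 0 := by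
    unfold zet
    have e1 : ((AlgHom.id k Ω : Ω →ₐ[k] Ω) : Ω →+* Ω) = RingHom.id Ω := rfl
    rw [e1, MvPolynomial.map_id, C_0, zero_add, bind₁_X_left, AlgHom.id_apply,
      sub_self]
  have h3 : ∀ i, Dc D (X i : MvPolynomial (Fin 2) Ω) = 0 := by
    intro i
    ext g
    rw [coeff_Dc hD, coeff_zero, coeff_X]
    split_ifs
    · have := hD.alg 1
      rwa [_root_.map_one] at this
    · exact hD.map_zero
  have h4 : Err p D Ds x e κ t (zet (AlgHom.id k Ω) Z 0 X) l X = 0 := by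
    unfold Err
    have h5 : Dc Ds (0 : MvPolynomial (Fin 2) Ω) = 0 := by
      unfold Dc
      rw [support_zero, Finset.sum_empty]
    rw [h2, PP_zero, h5, mul_zero, mul_zero, add_zero, zero_add]
    exact Finset.sum_eq_zero fun i _ => by rw [h3, mul_zero]
  rwa [h4, add_zero, bind₁_X_left, AlgHom.id_apply] at h1

end B

/-! ### Residues -/

/-- The distance of a polynomial to its residue polynomial. -/
theorem exists_mu {f : MvPolynomial (Fin 2) Ω} {G : MvPolynomial (Fin 2) k}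
    (hG : ∀ g, Rs v (coeff g f) (coeff g G)) :
    ∃ μ : ℝ, 0 < μ ∧ ∀ g, v.Ge μ (coeff g (f - MvPolynomial.map (algebraMap k Ω) G)) := by
  classical
  set q := f - MvPolynomial.map (algebraMap k Ω) G with hq
  have h1 : ∀ g, VPos v (coeff g q) := fun g => by
    rw [hq, coeff_sub, coeff_map]
    exact hG g
  choose r hr hrg using fun g => VPos.ge_iff (h1 g)
  by_cases hne : q.support.Nonempty
  · obtain ⟨m, hm, hmin⟩ := q.support.exists_min_image r hne
    refine ⟨r m, hr m, fun g => ?_⟩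
    by_cases hg : g ∈ q.support
    · exact (hrg g).mono (hmin g hg)
    · rw [notMem_support_iff.1 hg]
      exact RVal.Ge.zero
  · refine ⟨1, one_pos, fun g => ?_⟩
    rw [Finset.not_nonempty_iff_eq_empty] at hne
    rw [notMem_support_iff.1 (by rw [hne]; exact Finset.notMem_empty g)]
    exact RVal.Ge.zero

/-- The value at `L` of a small polynomial. -/
theorem bind_ge {f : MvPolynomial (Fin 2) Ω} {μ r : ℝ} (hf : ∀ g, v.Ge μ (coeff g f))
    (hL : ∀ α ∈ f.support, ∀ β, v.Ge (r - μ) (coeff β (α.prod fun i e => L i ^ e))) (β : Ex) :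
    v.Ge r (coeff β (bind₁ L f)) := by
  have h1 : bind₁ L f = ∑ α ∈ f.support, C (coeff α f) * α.prod fun i e => L i ^ e := by
    conv_lhs => rw [f.as_sum]
    rw [map_sum]
    refine Finset.sum_congr rfl fun α _ => ?_
    rw [bind₁_monomial]
    rfl
  rw [h1, coeff_sum]
  refine RVal.Ge.sum _ _ fun α hα => ?_
  rw [coeff_C_mul]
  exact ((hf α).mul (hL α hα β)).mono (by linarith)

/-- The monomials in `L`, of exponents in `S`, are of value `≥ - μ`. -/
def Far (v : RVal Ω) (L : Fin 2 → MvPolynomial (Fin 2) Ω) (S : Finset Ex) (μ : ℝ) : Prop :=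
  ∀ α ∈ S, ∀ β, v.Ge (-μ) (coeff β (α.prod fun i e => L i ^ e))

open Classical in
/-- **The residue polynomial at `L`.** -/
theorem bind_rs {f : MvPolynomial (Fin 2) Ω} {G : MvPolynomial (Fin 2) k} {μ : ℝ}
    (hμ : ∀ g, v.Ge μ (coeff g (f - MvPolynomial.map (algebraMap k Ω) G)))
    (hL : Far v L (f.support ∪ G.support) μ) (β : Ex) :
    v.Ge 0 (coeff β (bind₁ L f - bind₁ L (MvPolynomial.map (algebraMap k Ω) G))) := by
  rw [← map_sub]
  refine bind_ge (r := 0) hμ (fun α hα β => ?_) β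
  rw [zero_sub]
  refine hL α ?_ β
  rw [Finset.mem_union]
  by_contra hcon
  push Not at hcon
  obtain ⟨h1, h2⟩ := hcon
  rw [mem_support_iff] at hα
  apply hα
  rw [coeff_sub, coeff_map, notMem_support_iff.1 h1, notMem_support_iff.1 h2, _root_.map_zero,
    sub_zero]

open Classical in
/-- **(a*), with the residue polynomial** `N = res (d Z)`. -/
theorem RT.ast_aN [Infinite k] (hk : Ctx0 k v) (h : RT v F T Φ z Z Za L) {d : Ω → Ω}
    (hd : FLn v F d) {N : MvPolynomial (Fin 2) k} {μ : ℝ}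
    (hμ : ∀ g, v.Ge μ (coeff g (Dc d Z - MvPolynomial.map (algebraMap k Ω) N)))
    (hL : Far v L ((Dc d Z).support ∪ N.support) μ) (β : Ex) :
    v.Ge 0 (coeff β (bind₁ L (MvPolynomial.map (algebraMap k Ω) N)) +
      d (coeff β (zet Φ Z Za L))) := by
  have h1 := (h.ast_a hk hd β).sub (bind_rs hμ hL β)
  rw [coeff_sub] at h1
  convert h1 using 1
  ring

open Classical in
/-- **(b*), with the residue polynomial** `G = res Γ`. -/
theorem RT.ast_bG {p : ℕ} [Fact p.Prime] [CharP Ω p] [CharP k p] [IsAlgClosed k] {D Ds : Ω → Ω}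
    {x a₀ : Ω} {e : k} {κ : ℕ → k} {t : ℕ} {R : MvPolynomial (Fin 2) Ω}
    {l : MvPolynomial (Fin 2) k} (hk : Ctx0 k v) (h : RT v F T Φ z Z Za L)
    (hB : RB p v F T Φ z Z L x a₀ e κ t R l) (hD : Drv v F D) (hx : v.Ge 0 (D x))
    (hDs : FSh p v F D Ds) {G : MvPolynomial (Fin 2) k} {μ : ℝ}
    (hμ : ∀ g, v.Ge μ (coeff g (Gam p D Ds x e κ t Z R - MvPolynomial.map (algebraMap k Ω) G)))
    (hL : Far v L ((Gam p D Ds x e κ t Z R).support ∪ G.support) μ) (β : Ex) :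
    v.Ge 0 (coeff β (bind₁ L (MvPolynomial.map (algebraMap k Ω) G) +
      Err p D Ds x e κ t (zet Φ Z Za L) l L)) := by
  have h1 := (h.ast_b hk hB hD hx hDs β).sub (bind_rs hμ hL β)
  rw [coeff_add, coeff_sub] at h1
  rw [coeff_add]
  convert h1 using 1
  ring

/-- The coefficients of the error, `Dx = 1`. -/
theorem coeff_Err {p : ℕ} {D Ds : Ω → Ω} {x : Ω} {e : k} {κ : ℕ → k} {t : ℕ}
    {ζ : MvPolynomial (Fin 2) Ω} {l : MvPolynomial (Fin 2) k} (hD : Drv v F D)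
    (hDs : FSh p v F D Ds) (β : Ex) :
    coeff β (Err p D Ds x e κ t ζ l L) = D x * coeff β (PP p κ t ζ) +
      algebraMap k Ω e * Ds (coeff β ζ) +
      ∑ i, algebraMap k Ω (coeff (Finsupp.single i 1) l) * D (coeff β (L i)) := by
  unfold Err
  rw [coeff_add, coeff_add, coeff_C_mul, coeff_C_mul, coeff_sum, coeff_Dc' (add_zero' hDs.add)]
  congr 1
  refine Finset.sum_congr rfl fun i _ => ?_
  rw [coeff_C_mul, coeff_Dc hD]

end Pool.Agent.TWCU9
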