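import Pool.Agent.Lib.TWCY.Der

/-!
# The right translates: the relations `(a*)`

`S` (a motion `τ`) and `T c`, `c ∈ k²`, are isometric embeddings of `Ω`, `F` is stable, `z` is a limit of
`F`, `T c z - z = Z(c)` and `S z - z = Z_a` modulo `O_0`, `L` is a pair of polynomials over `F` (the
right translate `γ.g`), `ζ = Z_a + (S Z) - Z(L)`.
* `eval_lin`: a linear map and the values of a polynomial;
* `disp`: `S (T c z) - z = Z(L(c)) + ζ(c)` modulo `O_0`;
* `astar`: `d` `F`-linear of norm `≤ 0`, `d F = 0`: `(d Z)(L) + d ζ` is in `O_0`, coefficientwise;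
* `astar_strict`: the strong form: `(d Z)(L) - d Z + d ζ` is strictly positive, coefficientwise, if `d` and
  `S` are strict.
-/

set_option autoImplicit false

open MvPolynomial

namespace Pool.Agent.TWCU

open Pool.Agent.H15JM (RVal)
open Pool.Agent.D2 (Ctx0)
open Pool.Agent.TWM
open Pool.Agent.TWS (IsoE SphC)
open Pool.Agent.TWLY
open Pool.Agent.TWCY

universe u

variable {k Ω : Type u} [Field k] [Field Ω] [Algebra k Ω] {v : RVal Ω}
  {S₀ F : IntermediateField k Ω}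

theorem coeff_Dc' {d : Ω → Ω} (h0 : d 0 = 0) (f : MvPolynomial (Fin 2) Ω) (g : Ex) :
    coeff g (Dc d f) = d (coeff g f) := by
  classical
  unfold Dc
  rw [coeff_sum]
  by_cases hg : g ∈ f.support
  · rw [Finset.sum_eq_single_of_mem g hg, coeff_monomial, if_pos rfl]
    intro b _ hb
    rw [coeff_monomial, if_neg hb]
  · rw [Finset.sum_eq_zero, notMem_support_iff.1 hg, h0]
    intro b hb
    rw [coeff_monomial, if_neg]
    rintro rfl
    exact hg hb

/-- **A linear map and the values of a polynomial**, at a point whose monomials are scalars. -/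
theorem eval_lin (d : Ω →ₗ[S₀] Ω) {q : MvPolynomial (Fin 2) Ω} {x : Fin 2 → Ω}
    (hx : ∀ g, coeff g q ≠ 0 → (∏ i, x i ^ g i) ∈ S₀) : d (eval x q) = eval x (Dc d q) := by
  classical
  have h1 : ∀ r : MvPolynomial (Fin 2) Ω, (∀ g, coeff g r ≠ 0 → g ∈ q.support) →
      eval x r = ∑ g ∈ q.support, coeff g r * ∏ i, x i ^ g i := by
    intro r hr
    rw [eval_eq']
    refine Finset.sum_subset (fun g hg => hr g (mem_support_iff.1 hg)) fun g _ hg => ?_
    rw [notMem_support_iff.1 hg, zero_mul]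
  rw [h1 q fun g hg => mem_support_iff.2 hg, h1 (Dc d q) fun g hg => ?_, map_sum]
  · refine Finset.sum_congr rfl fun g hg => ?_
    rw [coeff_Dc' (map_zero d)]
    have h2 := hx g (mem_support_iff.1 hg)
    have h3 : coeff g q * ∏ i, x i ^ g i = (⟨∏ i, x i ^ g i, h2⟩ : S₀) • coeff g q := by
      rw [IntermediateField.smul_def, smul_eq_mul, mul_comm]
    rw [h3, map_smul, IntermediateField.smul_def, smul_eq_mul, mul_comm]
  · rw [coeff_Dc' (map_zero d)] at hg
    refine mem_support_iff.2 fun h => hg ?_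
    rw [h, map_zero]

/-- Over the constants. -/
theorem eval_lin_pt (d : Ω →ₗ[S₀] Ω) (q : MvPolynomial (Fin 2) Ω) (c : Fin 2 → k) :
    d (eval (pt c) q) = eval (pt c) (Dc d q) :=
  eval_lin d fun g _ => prod_mem fun i _ => pow_mem (S₀.algebraMap_mem _) _

theorem eval_aeval (L : Fin 2 → MvPolynomial (Fin 2) Ω) (q : MvPolynomial (Fin 2) Ω)
    (x : Fin 2 → Ω) : eval x (aeval L q) = eval (fun i => eval x (L i)) q := by
  induction q using MvPolynomial.induction_on with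
  | C a => rw [aeval_C, algebraMap_eq, eval_C, eval_C]
  | add p q hp hq => rw [map_add, map_add, map_add, hp, hq]
  | mul_X p i hp => rw [map_mul, map_mul, map_mul, hp, aeval_X, eval_X]

/-- `ζ = Z_a + (S Z) - Z(L)`. -/
noncomputable def zet (S : Ω →ₐ[k] Ω) (L : Fin 2 → MvPolynomial (Fin 2) Ω) (Za : Ω)
    (Z : MvPolynomial (Fin 2) Ω) : MvPolynomial (Fin 2) Ω :=
  C Za + MvPolynomial.map (S : Ω →+* Ω) Z - aeval L Z

variable {T : (Fin 2 → k) → Ω →ₐ[k] Ω} {S : Ω →ₐ[k] Ω} {z Za : Ω} {Z : MvPolynomial (Fin 2) Ω}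
  {L : Fin 2 → MvPolynomial (Fin 2) Ω}

/-- **The displacement of `z` under `S T c`.** -/
theorem disp (hS : IsoE v v S) (hSz : v.Ge 0 (S z - z - Za))
    (hTz : ∀ c, v.Ge 0 (T c z - z - eval (pt c) Z)) (c : Fin 2 → k) :
    v.Ge 0 (S (T c z) - z - eval (pt c) (aeval L Z + zet S L Za Z)) := by
  have e : S (T c z) - z - eval (pt c) (aeval L Z + zet S L Za Z) =
      S (T c z - z - eval (pt c) Z) + (S z - z - Za) := by
    unfold zet
    rw [map_add, map_sub, map_add, eval_C, map_sub, map_sub]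
    have h1 : eval (pt c) (MvPolynomial.map (S : Ω →+* Ω) Z) = S (eval (pt c) Z) :=
      eval_map_pt S c Z
    rw [h1]
    ring
  rw [e]
  exact (hS.ge_iff.2 (hTz c)).add hSz

/-- **(a*)** `d` is `F`-linear, of norm `≤ 0`, `d F = 0`. -/
theorem astar [Infinite k] (hk : Ctx0 k v) (hS : IsoE v v S) (hT : ∀ c, IsoE v v (T c))
    (hSF : ∀ f ∈ F, S f ∈ F) (hTF : ∀ c, ∀ f ∈ F, T c f ∈ F) (hz : Lim v F 0 z)
    (hSz : v.Ge 0 (S z - z - Za)) (hTz : ∀ c, v.Ge 0 (T c z - z - eval (pt c) Z))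
    (hL : ∀ i g, coeff g (L i) ∈ F) (d : Ω →ₗ[F] Ω)
    (hd : ∀ (y : Ω) (c : ℝ), v.Ge c y → v.Ge c (d y)) (hdF : ∀ f ∈ F, d f = 0) (g : Ex) :
    v.Ge 0 (coeff g (aeval L (Dc d Z)) + d (coeff g (zet S L Za Z))) := by
  have e1 : coeff g (aeval L (Dc d Z)) + d (coeff g (zet S L Za Z)) =
      coeff g (aeval L (Dc d Z) + Dc d (zet S L Za Z)) := by
    rw [coeff_add, coeff_Dc' (map_zero d) (zet S L Za Z)]
  rw [e1]
  refine ge_coeff hk (fun c => ?_) g
  -- the displacement is killed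
  have h1 : v.Ge 0 (d (S (T c z) - z)) := by
    refine ge_zero_of_eps fun ε hε => ?_
    obtain ⟨θ, hθ, h2⟩ := Lim.neg_eps hz hε
    have e2 : S (T c z) - z = (S (T c θ) - θ) + (S (T c (z - θ)) - (z - θ)) := by
      rw [map_sub, map_sub]
      ring
    rw [e2, map_add, hdF _ (sub_mem (hSF _ (hTF c _ hθ)) hθ), zero_add]
    exact hd _ _ ((hS.ge_iff.2 ((hT c).ge_iff.2 h2)).sub h2)
  have h2 := hd _ _ (disp (L := L) hS hSz hTz c)
  rw [map_sub] at h2
  have h3 := h1.sub h2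
  rw [sub_sub_cancel] at h3
  have h4 : d (eval (pt c) (aeval L Z + zet S L Za Z)) =
      eval (pt c) (aeval L (Dc d Z) + Dc d (zet S L Za Z)) := by
    rw [map_add, map_add, map_add, eval_aeval, eval_aeval, eval_lin_pt]
    congr 1
    exact eval_lin d fun g _ => prod_mem fun i _ => pow_mem (eval_pt_mem (hL i) c) _
  rw [← h4]
  exact h3

/-- Values and coefficients, the strict form. -/
theorem gt_coeff [Infinite k] (hk : Ctx0 k v) {f : MvPolynomial (Fin 2) Ω}
    (hf : ∀ c : Fin 2 → k, Gt v 0 (eval (pt c) f)) (g : Ex) : Gt v 0 (coeff g f) := by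
  have h1 : ∀ g, v.Ge 0 (coeff g f) := ge_coeff hk fun c h => (hf c h).le
  obtain ⟨G, hG⟩ := exists_rs hk h1
  have h2 : G = 0 := by
    refine MvPolynomial.funext fun c => ?_
    rw [map_zero]
    have h3 := rs_eval hk hG c
    have h4 : Rs v (eval (pt c) f) (0 : k) := rs_zero_iff.2 fun h => hf c h
    exact Rs.unique hk h3 h4
  have h3 := hG g
  rw [h2, coeff_zero] at h3
  exact fun h => rs_zero_iff.1 h3 h

theorem lim_map (hT : IsoE v v S) (hSF : ∀ f ∈ F, S f ∈ F) {y : Ω} (hy : Lim v F 0 y) :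
    Lim v F 0 (S y) := by
  intro ε hε
  obtain ⟨f, hf, h1⟩ := hy ε hε
  refine ⟨S f, hSF f hf, ?_⟩
  rw [← map_sub]
  exact hT.ge_iff.2 h1

/-- **(a*), the strong form.** `d` and `S` are strict. -/
theorem astar_strict [Infinite k] (hk : Ctx0 k v) (hS : IsoE v v S) (hT : ∀ c, IsoE v v (T c))
    (hSF : ∀ f ∈ F, S f ∈ F) (hTF : ∀ c, ∀ f ∈ F, T c f ∈ F) (hz : Lim v F 0 z)
    (hSz : v.Ge 0 (S z - z - Za)) (hTz : ∀ c, v.Ge 0 (T c z - z - eval (pt c) Z))
    (hL : ∀ i g, coeff g (L i) ∈ F) (d : Ω →ₗ[F] Ω)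
    (hd : ∀ (y : Ω) (c : ℝ), v.Ge c y → Gt v c (d y)) (hdF : ∀ f ∈ F, d f = 0) {m : ℝ}
    (hm : 0 < m) (hstr : ∀ y, Lim v F 0 y → ∀ r : ℝ, v.Ge r y → v.Ge (r + m) (S y - y)) (g : Ex) :
    Gt v 0 (coeff g (aeval L (Dc d Z)) - coeff g (Dc d Z) + d (coeff g (zet S L Za Z))) := by
  have e1 : coeff g (aeval L (Dc d Z)) - coeff g (Dc d Z) + d (coeff g (zet S L Za Z)) =
      coeff g (aeval L (Dc d Z) - Dc d Z + Dc d (zet S L Za Z)) := by
    rw [coeff_add, coeff_sub, coeff_Dc' (map_zero d) (zet S L Za Z)]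
  rw [e1]
  refine gt_coeff hk (fun c => ?_) g
  -- the displacement under `S`
  have h1 : Gt v 0 (d (S (T c z) - T c z)) := by
    obtain ⟨θ, hθ, h2⟩ := Lim.neg_eps hz hm
    have e2 : S (T c z) - T c z = (S (T c θ) - T c θ) + (S (T c (z - θ)) - T c (z - θ)) := by
      rw [map_sub, map_sub]
      ring
    have hlim : Lim v F 0 (T c (z - θ)) :=
      lim_map (hT c) (hTF c) fun ε hε => by
        obtain ⟨f, hf, h3⟩ := hz ε hε
        exact ⟨f - θ, sub_mem hf hθ, by rwa [sub_sub_sub_cancel_right]⟩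
    rw [e2, map_add, hdF _ (sub_mem (hSF _ (hTF c _ hθ)) (hTF c _ hθ)), zero_add]
    have h3 := hstr _ hlim _ ((hT c).ge_iff.2 h2)
    rw [neg_add_cancel] at h3
    exact hd _ _ h3
  have h2 := hd _ _ (disp (L := L) hS hSz hTz c)
  have h3 := hd _ _ (hTz c)
  rw [map_sub] at h2 h3
  have h4 : d (eval (pt c) (aeval L Z + zet S L Za Z)) =
      eval (pt c) (aeval L (Dc d Z) + Dc d (zet S L Za Z)) := by
    rw [map_add, map_add, map_add, eval_aeval, eval_aeval, eval_lin_pt]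
    congr 1
    exact eval_lin d fun g _ => prod_mem fun i _ => pow_mem (eval_pt_mem (hL i) c) _
  rw [h4] at h2
  rw [eval_lin_pt] at h3
  have h5 := (h1.add h3).sub h2
  have e3 : d (S (T c z) - T c z) + (d (T c z - z) - eval (pt c) (Dc d Z)) -
      (d (S (T c z) - z) - eval (pt c) (aeval L (Dc d Z) + Dc d (zet S L Za Z))) =
      eval (pt c) (aeval L (Dc d Z) - Dc d Z + Dc d (zet S L Za Z)) := by
    have e4 : d (S (T c z) - z) = d (S (T c z) - T c z) + d (T c z - z) := by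
      rw [← map_add, sub_add_sub_cancel]
    rw [e4]
    simp only [map_add, map_sub]
    ring
  rwa [e3] at h5

end Pool.Agent.TWCU
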