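import Pool.Agent.Lib.TWCU.Astar

/-!
# The right translates: the relations `(b*)`

The data of `TWCU.Astar`, and a tie `e z + x P(z) + a₀`, modulo `p`-th powers and `O_0`, at the
approximations of `z`; `x` is fixed by `S` and by the `T c`, `S (T c a₀) - a₀ = B(c)` modulo `O_0`;
`D` is a derivation of `F` of norm `≤ 0` and `E` an extension of `D` to `Ω`, linear over `S₀`, where
`F ^ p ⊆ S₀`. With `Q = Z(L) + ζ`:
* `bstar`: `e E(Q) + (D x) P(Q) + E(B)` is in `O_0`, coefficientwise;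
* `Dc_aeval`: `E(f(L)) = (E f)(L)` if the exponents of `f` are divisible by `p`;
* `bstar'`: `(e E Z + (D x) P(Z))(L) + e E ζ + (D x) P(ζ) + E(B)` is in `O_0`, coefficientwise.
-/

set_option autoImplicit false

open MvPolynomial

namespace Pool.Agent.TWCU

open Pool.Agent.H15JM (RVal)
open Pool.Agent.D2 (Ctx0)
open Pool.Agent.TWM
open Pool.Agent.TWS (IsoE SphC)
open Pool.Agent.TWLY
open Pool.Agent.TWCY

universe u

variable {k Ω : Type u} [Field k] [Field Ω] [Algebra k Ω] {v : RVal Ω}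
  {S₀ F : IntermediateField k Ω} {T : (Fin 2 → k) → Ω →ₐ[k] Ω} {S : Ω →ₐ[k] Ω} {z Za : Ω}
  {Z : MvPolynomial (Fin 2) Ω} {L : Fin 2 → MvPolynomial (Fin 2) Ω}

theorem Dc_add (d : Ω →ₗ[S₀] Ω) (f g : MvPolynomial (Fin 2) Ω) :
    Dc d (f + g) = Dc d f + Dc d g := by
  ext m
  rw [coeff_add, coeff_Dc' (map_zero d), coeff_Dc' (map_zero d), coeff_Dc' (map_zero d), coeff_add,
    map_add]

theorem Dc_C_mul {e : Ω} (he : e ∈ S₀) (d : Ω →ₗ[S₀] Ω) (f : MvPolynomial (Fin 2) Ω) :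
    Dc d (C e * f) = C e * Dc d f := by
  ext m
  rw [coeff_C_mul, coeff_Dc' (map_zero d), coeff_Dc' (map_zero d), coeff_C_mul]
  have h := map_smul d (⟨e, he⟩ : S₀) (coeff m f)
  rw [IntermediateField.smul_def, IntermediateField.smul_def, smul_eq_mul, smul_eq_mul] at h
  exact h

/-- Polynomials with the same values on `k²`. -/
theorem eq_of_eval_pt [Infinite k] (hk : Ctx0 k v) {f g : MvPolynomial (Fin 2) Ω}
    (h : ∀ c : Fin 2 → k, eval (pt c) f = eval (pt c) g) : f = g := by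
  ext m
  rw [← sub_eq_zero, ← coeff_sub]
  refine eq_zero_of_ge fun r => ge_coeff hk (fun c => ?_) m
  rw [map_sub, h c, sub_self]
  exact RVal.Ge.zero

section tie

variable {p : ℕ} [hp : Fact p.Prime] [CharP Ω p] {κ : ℕ → k} {t : ℕ} {x a₀ : Ω} {e : k}
  {B : MvPolynomial (Fin 2) Ω} {D : Ω → Ω}

/-- **(b*)** The relation of the tie at the right translates. -/
theorem bstar [Infinite k] (hk : Ctx0 k v) (hS : IsoE v v S) (hT : ∀ c, IsoE v v (T c))
    (hSF : ∀ f ∈ F, S f ∈ F) (hTF : ∀ c, ∀ f ∈ F, T c f ∈ F)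
    (hSz : v.Ge 0 (S z - z - Za)) (hTz : ∀ c, v.Ge 0 (T c z - z - eval (pt c) Z))
    (hxF : x ∈ F) (hSx : S x = x) (hTx : ∀ c, T c x = x) (haF : a₀ ∈ F)
    (hB : ∀ c, v.Ge 0 (S (T c a₀) - a₀ - eval (pt c) B))
    (htie : ∀ ε : ℝ, 0 < ε → ∃ θ ∈ F, v.Ge (-ε) (z - θ) ∧
      ∃ h ∈ F, v.Ge (-ε) (algebraMap k Ω e * θ + x * PP p κ t θ + a₀ - h ^ p))
    (hD : Drv v F D) (hDx : v.Ge 0 (D x)) (E : Ω →ₗ[S₀] Ω)
    (hE : ∀ (y : Ω) (c : ℝ), v.Ge c y → v.Ge c (E y)) (hED : ∀ f ∈ F, E f = D f) (g : Ex) :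
    v.Ge 0 (coeff g (C (algebraMap k Ω e) * Dc E (aeval L Z + zet S L Za Z) +
      C (D x) * PP p κ t (aeval L Z + zet S L Za Z) + Dc E B)) := by
  refine ge_coeff hk (fun c => ?_) g
  set Q := aeval L Z + zet S L Za Z with hQ
  have hp1 : (1 : ℝ) ≤ p ^ (t + 1) := by
    have h1 : (1 : ℝ) ≤ p := by exact_mod_cast hp.out.one_lt.le
    exact one_le_pow₀ h1
  have hp0 : (0 : ℝ) < p ^ (t + 1) := by linarith
  refine ge_zero_of_eps' hp0 fun ε hε => ?_
  obtain ⟨θ, hθ, h1, h, hh, h2⟩ := htie ε hε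
  set Y := S (T c θ) - θ with hY
  have hSTF : ∀ f ∈ F, S (T c f) ∈ F := fun f hf => hSF _ (hTF c f hf)
  have hYF : Y ∈ F := sub_mem (hSTF θ hθ) hθ
  have hPF : PP p κ t Y ∈ F := PP_mem hYF
  set A := S (T c a₀) - a₀ with hA
  have hAF : A ∈ F := sub_mem (hSTF a₀ haF) haF
  set hh' := S (T c h) - h with hh''
  have hhF : hh' ∈ F := sub_mem (hSTF h hh) hh
  set R := algebraMap k Ω e * Y + x * PP p κ t Y + A - hh' ^ p with hR
  have hR1 : v.Ge (-ε) R := by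
    have e1 : R = S (T c (algebraMap k Ω e * θ + x * PP p κ t θ + a₀ - h ^ p)) -
        (algebraMap k Ω e * θ + x * PP p κ t θ + a₀ - h ^ p) := by
      rw [hR, hY, hA, hh'', sub_pow_char, PP_sub, map_sub, map_add, map_add, map_mul, map_mul,
        AlgHom.commutes, hTx c, PP_map, map_pow, map_sub, map_add, map_add, map_mul, map_mul,
        AlgHom.commutes, hSx, PP_map, map_pow]
      ring
    rw [e1]
    exact (hS.ge_iff.2 ((hT c).ge_iff.2 h2)).sub h2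
  have hm1 : algebraMap k Ω e * Y ∈ F := mul_mem (F.algebraMap_mem _) hYF
  have hm2 : x * PP p κ t Y ∈ F := mul_mem hxF hPF
  have hRF : R ∈ F := sub_mem (add_mem (add_mem hm1 hm2) hAF) (pow_mem hhF p)
  have hDR := hD.norm R hRF _ hR1
  have e2 : D R = algebraMap k Ω e * D Y + D x * PP p κ t Y + D A := by
    rw [hR, hD.map_sub (add_mem (add_mem hm1 hm2) hAF) (pow_mem hhF p), hD.map_pow_char hhF,
      sub_zero, hD.add _ (add_mem hm1 hm2) _ hAF, hD.add _ hm1 _ hm2, hD.map_smul _ hYF,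
      hD.mul x hxF _ hPF, hD.map_PP hYF, mul_zero, zero_add, mul_comm (PP p κ t Y)]
  -- the approximation of the displacement
  have h3 : v.Ge (-ε) (eval (pt c) Q - Y) := by
    have h4 := disp (L := L) hS hSz hTz c
    have e3 : eval (pt c) Q - Y = -(S (T c z) - z - eval (pt c) Q) +
        (S (T c (z - θ)) - (z - θ)) := by
      rw [hY, map_sub, map_sub]
      ring
    rw [e3]
    exact ((h4.mono (by linarith)).neg).add ((hS.ge_iff.2 ((hT c).ge_iff.2 h1)).sub h1)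
  have h5 := hE _ _ h3
  rw [map_sub, hED Y hYF] at h5
  have h6 := ge_PP (p := p) (κ := κ) (t := t) hk hε h3
  rw [PP_sub] at h6
  have h7 := hE _ _ (hB c)
  rw [map_sub, hED _ hAF] at h7
  have hle : -(p ^ (t + 1) * ε) ≤ -ε := by nlinarith
  have hle0 : -(p ^ (t + 1) * ε) ≤ 0 := by nlinarith
  have h8 := (hk.ge e).mul h5
  have h9 := hDx.mul h6
  rw [zero_add] at h8 h9
  have h10 := (((hDR.mono hle).add (h8.mono hle)).add h9).sub (h7.mono hle0)
  rw [map_add, map_add, map_mul, map_mul, eval_C, eval_C, eval_PP, ← eval_lin_pt, ← eval_lin_pt]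
  convert h10 using 1
  rw [e2]
  ring

omit hp [CharP Ω p] in
/-- An extension of a derivation and the substitution `L`, for exponents divisible by `p`. -/
theorem Dc_aeval [Infinite k] (hk : Ctx0 k v) (hSp : ∀ f ∈ F, f ^ p ∈ S₀) (hL : ∀ i g, coeff g (L i) ∈ F)
    (E : Ω →ₗ[S₀] Ω) {f : MvPolynomial (Fin 2) Ω} (hf : ∀ g, coeff g f ≠ 0 → ∀ i, p ∣ g i) :
    Dc E (aeval L f) = aeval L (Dc E f) := by
  refine eq_of_eval_pt hk fun c => ?_
  rw [← eval_lin_pt, eval_aeval, eval_aeval]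
  refine eval_lin E fun g hg => prod_mem fun i _ => ?_
  obtain ⟨m, hm⟩ := hf g hg i
  rw [hm, mul_comm, pow_mul]
  exact hSp _ (pow_mem (eval_pt_mem (hL i) c) _)

omit hp [CharP Ω p] in
theorem PP_aeval (f : MvPolynomial (Fin 2) Ω) :
    PP p κ t (aeval L f) = aeval L (PP p κ t f) :=
  (PP_map ((aeval L : MvPolynomial (Fin 2) Ω →ₐ[Ω] MvPolynomial (Fin 2) Ω).restrictScalars k)
    f).symm

/-- **(b*)**, with `G = e E Z + (D x) P(Z)` in front. -/
theorem bstar' [Infinite k] (hk : Ctx0 k v) (hS : IsoE v v S) (hT : ∀ c, IsoE v v (T c))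
    (hSF : ∀ f ∈ F, S f ∈ F) (hTF : ∀ c, ∀ f ∈ F, T c f ∈ F)
    (hSz : v.Ge 0 (S z - z - Za)) (hTz : ∀ c, v.Ge 0 (T c z - z - eval (pt c) Z))
    (hL : ∀ i g, coeff g (L i) ∈ F)
    (hxF : x ∈ F) (hSx : S x = x) (hTx : ∀ c, T c x = x) (haF : a₀ ∈ F)
    (hB : ∀ c, v.Ge 0 (S (T c a₀) - a₀ - eval (pt c) B))
    (htie : ∀ ε : ℝ, 0 < ε → ∃ θ ∈ F, v.Ge (-ε) (z - θ) ∧
      ∃ h ∈ F, v.Ge (-ε) (algebraMap k Ω e * θ + x * PP p κ t θ + a₀ - h ^ p))
    (hZp : e ≠ 0 → ∀ g, coeff g Z ≠ 0 → ∀ i, p ∣ g i) (hSp : ∀ f ∈ F, f ^ p ∈ S₀)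
    (hD : Drv v F D) (hDx : v.Ge 0 (D x)) (E : Ω →ₗ[S₀] Ω)
    (hE : ∀ (y : Ω) (c : ℝ), v.Ge c y → v.Ge c (E y)) (hED : ∀ f ∈ F, E f = D f) (g : Ex) :
    v.Ge 0 (coeff g (aeval L (C (algebraMap k Ω e) * Dc E Z + C (D x) * PP p κ t Z) +
      (C (algebraMap k Ω e) * Dc E (zet S L Za Z) + C (D x) * PP p κ t (zet S L Za Z)) +
      Dc E B)) := by
  have h := bstar (L := L) hk hS hT hSF hTF hSz hTz hxF hSx hTx haF hB htie hD hDx E hE hED g
  have e1 : C (algebraMap k Ω e) * Dc E (aeval L Z) =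
      aeval L (C (algebraMap k Ω e) * Dc E Z) := by
    by_cases h0 : e = 0
    · rw [h0, map_zero, C_0, zero_mul, zero_mul, map_zero]
    · rw [Dc_aeval (p := p) hk hSp hL E (hZp h0), map_mul, aeval_C, algebraMap_eq]
  have e2 : C (algebraMap k Ω e) * Dc E (aeval L Z + zet S L Za Z) +
      C (D x) * PP p κ t (aeval L Z + zet S L Za Z) + Dc E B =
      aeval L (C (algebraMap k Ω e) * Dc E Z + C (D x) * PP p κ t Z) +
      (C (algebraMap k Ω e) * Dc E (zet S L Za Z) + C (D x) * PP p κ t (zet S L Za Z)) +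
      Dc E B := by
    rw [Dc_add, PP_add, mul_add, e1, PP_aeval, map_add, map_mul (aeval L) (C (D x)), aeval_C,
      algebraMap_eq]
    ring
  rwa [e2] at h

end tie

end Pool.Agent.TWCU
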