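import Pool.Agent.Lib.TWCY.NFa

/-!
# The normal form of `a₀` over `F = cl C(u)`, `C = cl W(w)` (row (1b), (2a))

`w 0 = w ∈ lim W`, `w 1 = u ∈ lim C`; `dd 1 = ∂_u`, `dd 0` is `W`-linear with `dd 0 w = 1`,
`dd 0 u = U_1 ∈ C`.  The tie `a = e z + x P(z) + a₀`.

* `nfb`: after `z ↦ z - φ`, `u ↦ u - c(w)`: `a₀ = ρ₀ w + ρ₁ u + A(w, u)`, `A` over `W` with exponents
  divisible by `p`; `ρ = 0` if `e ≠ 0`; if `ρ₁ ≠ 0`, `U_1` is strict.
-/

set_option autoImplicit false

open MvPolynomial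

namespace Pool.Agent.TWCU

open Pool.Agent.H15JM (RVal)
open Pool.Agent.LU1 (VPos)
open Pool.Agent.D2 (Ctx0)
open Pool.Agent.TWM
open Pool.Agent.TWS (IsoE SphC)
open Pool.Agent.TWLY
open Pool.Agent.TWCY

universe u

/-! ### Polynomials -/

section poly

variable {K : Type*} [Field K]

/-- The projection to the kernel of `∂_i`, centre `α` with `∂_i α = 0`. -/
noncomputable def prq (p : ℕ) (i : Fin 2) (α q : MvPolynomial (Fin 2) K) :
    MvPolynomial (Fin 2) K :=
  ∑ m ∈ Finset.range p, C (cc K m) * (X i - α) ^ m * (pderiv i)^[m] q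

theorem sum_prq {p : ℕ} [CharP K p] {i : Fin 2} {α : MvPolynomial (Fin 2) K}
    (hα : pderiv i α = 0) (q : MvPolynomial (Fin 2) K) (n : ℕ) (hn : n < p) :
    ∑ m ∈ Finset.range (n + 1), pderiv i (C (cc K m) * (X i - α) ^ m * (pderiv i)^[m] q) =
      C (cc K n) * (X i - α) ^ n * (pderiv i)^[n + 1] q := by
  have hX : pderiv i (X i - α : MvPolynomial (Fin 2) K) = 1 := by
    rw [map_sub, hα, pderiv_X_self, sub_zero]
  induction n with
  | zero =>
    rw [Finset.sum_range_one]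
    simp only [pow_zero, mul_one, Function.iterate_zero, id_eq, zero_add, Function.iterate_one]
    rw [pderiv_C_mul]
  | succ n ih =>
    rw [Finset.sum_range_succ, ih (by omega)]
    have h0 : ((n + 1 : ℕ) : K) ≠ 0 := by
      intro h
      rw [CharP.cast_eq_zero_iff K p] at h
      exact absurd (Nat.le_of_dvd (Nat.succ_pos n) h) (by omega)
    have h1 := cc_succ (K := K) n h0
    have h2 : C (cc K (n + 1)) * ((n + 1 : ℕ) : MvPolynomial (Fin 2) K) = -C (cc K n) := by
      rw [← C_eq_coe_nat, ← C_mul, h1, C_neg]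
    rw [pderiv_mul, pderiv_C_mul, pderiv_pow, hX, Nat.add_sub_cancel, mul_one,
      ← Function.iterate_succ_apply' (⇑(pderiv i)), ← mul_assoc (C (cc K (n + 1))), h2]
    ring

theorem pderiv_prq {p : ℕ} [hp : Fact p.Prime] [CharP K p] {i : Fin 2}
    {α : MvPolynomial (Fin 2) K} (hα : pderiv i α = 0)
    (q : MvPolynomial (Fin 2) K) : pderiv i (prq p i α q) = 0 := by
  unfold prq
  rw [map_sum]
  obtain ⟨n, hn⟩ : ∃ n, p = n + 1 := ⟨p - 1, by have := hp.out.pos; omega⟩
  have h1 := sum_prq hα q n (by omega)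
  rw [← hn] at h1
  rw [h1, pderiv_it_p i q hp.out.ne_zero, mul_zero]

theorem pderiv_prq_ne {p : ℕ} {i j : Fin 2} (hij : i ≠ j) {α q : MvPolynomial (Fin 2) K}
    (hα : pderiv j α = 0) (hq : pderiv j q = 0) : pderiv j (prq p i α q) = 0 := by
  unfold prq
  rw [map_sum]
  refine Finset.sum_eq_zero fun m _ => ?_
  have hX : pderiv j (X i - α : MvPolynomial (Fin 2) K) = 0 := by
    rw [map_sub, hα, pderiv_X_of_ne hij, sub_zero]
  rw [pderiv_mul, pderiv_C_mul, pderiv_pow, hX, mul_zero, mul_zero, zero_mul, zero_add,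
    pderiv_it_comm, hq]
  rw [iterate_map_zero, mul_zero]

/-- The primitive of `q` for `∂_i` up to `∂_i^(p-1) q`. -/
noncomputable def prim (p : ℕ) (i : Fin 2) (α q : MvPolynomial (Fin 2) K) :
    MvPolynomial (Fin 2) K :=
  ∑ m ∈ Finset.range (p - 1), C (-cc K (m + 1)) * (X i - α) ^ (m + 1) * (pderiv i)^[m] q

theorem pderiv_prim {p : ℕ} [hp : Fact p.Prime] [CharP K p] {i : Fin 2}
    {α : MvPolynomial (Fin 2) K} (hα : pderiv i α = 0) (q : MvPolynomial (Fin 2) K) :
    pderiv i (prim p i α q) =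
      q - C (cc K (p - 1)) * (X i - α) ^ (p - 1) * (pderiv i)^[p - 1] q := by
  have hX : pderiv i (X i - α : MvPolynomial (Fin 2) K) = 1 := by
    rw [map_sub, hα, pderiv_X_self, sub_zero]
  have key : ∀ n, n ≤ p - 1 → ∑ m ∈ Finset.range n,
      pderiv i (C (-cc K (m + 1)) * (X i - α) ^ (m + 1) * (pderiv i)^[m] q) =
        q - C (cc K n) * (X i - α) ^ n * (pderiv i)^[n] q := by
    intro n
    induction n with
    | zero =>
      intro _
      rw [Finset.sum_range_zero, cc_zero]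
      simp
    | succ n ih =>
      intro hn
      rw [Finset.sum_range_succ, ih (by omega)]
      have h0 : ((n + 1 : ℕ) : K) ≠ 0 := by
        intro h
        rw [CharP.cast_eq_zero_iff K p] at h
        have := hp.out.pos
        exact absurd (Nat.le_of_dvd (Nat.succ_pos n) h) (by omega)
      have h1 := cc_succ (K := K) n h0
      have h2 : C (cc K (n + 1)) * ((n + 1 : ℕ) : MvPolynomial (Fin 2) K) = -C (cc K n) := by
        rw [← C_eq_coe_nat, ← C_mul, h1, C_neg]
      rw [pderiv_mul, pderiv_C_mul, pderiv_pow, hX, Nat.add_sub_cancel, mul_one,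
        ← Function.iterate_succ_apply' (⇑(pderiv i)), ← mul_assoc (C (-cc K (n + 1))), C_neg,
        neg_mul, h2]
      ring
  unfold prim
  rw [map_sum]
  exact key (p - 1) le_rfl

/-- only the first variable -/
def Fst (q : MvPolynomial (Fin 2) K) : Prop := q ∈ Algebra.adjoin K {(X 0 : MvPolynomial (Fin 2) K)}

theorem Fst.pderiv_one {q : MvPolynomial (Fin 2) K} (h : Fst q) : pderiv 1 q = 0 := by
  unfold Fst at h
  induction h using Algebra.adjoin_induction with
  | mem x hx =>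
    rw [Set.mem_singleton_iff] at hx
    rw [hx, pderiv_X_of_ne (by decide)]
  | algebraMap r => rw [algebraMap_eq, pderiv_C]
  | add x y _ _ hx hy => rw [map_add, hx, hy, add_zero]
  | mul x y _ _ hx hy => rw [pderiv_mul, hx, hy, zero_mul, mul_zero, add_zero]

theorem Fst.pderiv_zero {q : MvPolynomial (Fin 2) K} (h : Fst q) : Fst (pderiv 0 q) := by
  unfold Fst at h
  induction h using Algebra.adjoin_induction with
  | mem x hx =>
    rw [Set.mem_singleton_iff] at hx
    rw [hx, pderiv_X_self]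
    exact one_mem _
  | algebraMap r =>
    rw [algebraMap_eq, pderiv_C]
    exact zero_mem _
  | add x y _ _ hx hy =>
    rw [map_add]
    exact add_mem hx hy
  | mul x y hx' hy' hx hy =>
    rw [pderiv_mul]
    exact add_mem (mul_mem hx hy') (mul_mem hx' hy)

theorem Fst.it {q : MvPolynomial (Fin 2) K} (h : Fst q) (m : ℕ) : Fst ((pderiv 0)^[m] q) := by
  induction m generalizing q with
  | zero => exact h
  | succ m ih =>
    rw [Function.iterate_succ_apply]
    exact ih h.pderiv_zero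

theorem fst_C (a : K) : Fst (C a : MvPolynomial (Fin 2) K) := by
  unfold Fst
  rw [← algebraMap_eq]
  exact Subalgebra.algebraMap_mem _ a

theorem fst_X : Fst (X 0 : MvPolynomial (Fin 2) K) := Algebra.subset_adjoin rfl

theorem fst_prim {p : ℕ} {α : K} {q : MvPolynomial (Fin 2) K} (hq : Fst q) :
    Fst (prim p 0 (C α) q) :=
  sum_mem fun m _ => mul_mem (mul_mem (fst_C _) (pow_mem (sub_mem fst_X (fst_C α)) _)) (hq.it m)

/-- A polynomial with exponents divisible by `p` is a combination of `p`-th powers. -/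
theorem PDv.bind {p : ℕ} [hp : Fact p.Prime] [CharP K p] {q : MvPolynomial (Fin 2) K}
    (hq : PDv p q) (g : Fin 2 → MvPolynomial (Fin 2) K) : PDv p (bind₁ g q) := by
  have hadd : ∀ a b : MvPolynomial (Fin 2) K, PDv p a → PDv p b → PDv p (a + b) := by
    intro a b ha hb m i hi
    rw [coeff_add, ha m i hi, hb m i hi, add_zero]
  have hsum : ∀ (S : Finset Ex) (f : Ex → MvPolynomial (Fin 2) K), (∀ m ∈ S, PDv p (f m)) →
      PDv p (∑ m ∈ S, f m) := by
    intro S f h m i hi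
    rw [coeff_sum]
    exact Finset.sum_eq_zero fun n hn => h n hn m i hi
  rw [q.as_sum, map_sum]
  refine hsum _ _ fun m hm => ?_
  have hd : ∀ i, p ∣ m i := fun i => by
    by_contra h
    exact (mem_support_iff.1 hm) (hq m i h)
  choose n hn using hd
  rw [bind₁_monomial]
  have e : ∏ i ∈ m.support, g i ^ m i = (∏ i ∈ m.support, g i ^ n i) ^ p ^ (0 + 1) := by
    rw [zero_add, pow_one, ← Finset.prod_pow]
    refine Finset.prod_congr rfl fun i _ => ?_
    rw [← pow_mul, hn i, mul_comm]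
  rw [e]
  intro d i hi
  rw [coeff_C_mul, pdv_pow _ 0 d i hi, mul_zero]

end poly

/-! ### Values -/

variable {k Ω : Type u} [Field k] [Field Ω] [Algebra k Ω] {v : RVal Ω}
  {W C₁ F : IntermediateField k Ω} {w : Fin 2 → Ω} {U1 : Ω}

/-- `F = cl C₁(w 1)`, `C₁ = cl W(w 0)`; `n1`, `n0`: `∂_1` and `∂_0 + U_1 ∂_1` have norm `≤ 0` on the
polynomials in `w 0`, `w 1`. -/
structure Pl (v : RVal Ω) (W C₁ F : IntermediateField k Ω) (w : Fin 2 → Ω) (U1 : Ω) : Prop where
  le : W ≤ C₁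
  le' : C₁ ≤ F
  wC : w 0 ∈ C₁
  wF : w 1 ∈ F
  dnsC : ∀ y ∈ C₁, ∀ r : ℝ, ∃ q : MvPolynomial (Fin 2) W, Fst q ∧ v.Ge r (y - aeval w q)
  dns : ∀ y ∈ F, ∀ r : ℝ, ∃ q : MvPolynomial (Fin 2) W, v.Ge r (y - aeval w q)
  l0 : Lim v W 0 (w 0)
  l1 : Lim v C₁ 0 (w 1)
  n1 : ∀ (r : ℝ) (q : MvPolynomial (Fin 2) W), v.Ge r (aeval w q) → v.Ge r (aeval w (pderiv 1 q))
  n0 : ∀ (r : ℝ) (q : MvPolynomial (Fin 2) W), v.Ge r (aeval w q) →
    v.Ge r (aeval w (pderiv 0 q) + U1 * aeval w (pderiv 1 q))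

namespace Pl

variable (hD : Pl v W C₁ F w U1)
include hD

theorem wm (i : Fin 2) : w i ∈ F := by
  fin_cases i
  · exact hD.le' hD.wC
  · exact hD.wF

theorem aeval_mem (q : MvPolynomial (Fin 2) W) : aeval w q ∈ F := by
  induction q using MvPolynomial.induction_on with
  | C a =>
    rw [aeval_C]
    exact hD.le' (hD.le a.2)
  | add a b ha hb => rw [map_add]; exact add_mem ha hb
  | mul_X a i ha => rw [map_mul, aeval_X]; exact mul_mem ha (hD.wm i)

theorem fst_mem {q : MvPolynomial (Fin 2) W} (hq : Fst q) : aeval w q ∈ C₁ := by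
  unfold Fst at hq
  induction hq using Algebra.adjoin_induction with
  | mem x hx =>
    rw [Set.mem_singleton_iff] at hx
    rw [hx, aeval_X]
    exact hD.wC
  | algebraMap r =>
    rw [algebraMap_eq, aeval_C]
    exact hD.le r.2
  | add x y _ _ hx hy => rw [map_add]; exact add_mem hx hy
  | mul x y _ _ hx hy => rw [map_mul]; exact mul_mem hx hy

theorem n0' {r : ℝ} {q : MvPolynomial (Fin 2) W} (hq : pderiv 1 q = 0)
    (h : v.Ge r (aeval w q)) : v.Ge r (aeval w (pderiv 0 q)) := by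
  have := hD.n0 r q h
  rwa [hq, map_zero, mul_zero, add_zero] at this

theorem ge_it1 {μ : ℝ} {q : MvPolynomial (Fin 2) W} (h : v.Ge μ (aeval w (pderiv 1 q))) (m : ℕ) :
    v.Ge μ (aeval w ((pderiv 1)^[m + 1] q)) := by
  induction m with
  | zero => exact h
  | succ m ih =>
    rw [Function.iterate_succ_apply']
    exact hD.n1 _ _ ih

theorem ge_it0 {μ : ℝ} {q : MvPolynomial (Fin 2) W} (hq : pderiv 1 q = 0)
    (h : v.Ge μ (aeval w q)) (m : ℕ) : v.Ge μ (aeval w ((pderiv 0)^[m] q)) := by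
  induction m with
  | zero => exact h
  | succ m ih =>
    have h1 : pderiv 1 ((pderiv 0)^[m] q) = 0 := by
      rw [pderiv_it_comm, hq, iterate_map_zero]
    rw [Function.iterate_succ_apply']
    exact hD.n0' h1 ih

omit hD in
/-- The projection does not change much. -/
theorem ge_prq (hk : Ctx0 k v) {p : ℕ} [hp : Fact p.Prime] {i : Fin 2} {μ : ℝ} (hμ : 0 < μ)
    {α q : MvPolynomial (Fin 2) W} (hα : v.Ge (-(μ / (2 * p))) (w i - aeval w α))
    (h : ∀ m, v.Ge μ (aeval w ((pderiv i)^[m + 1] q))) :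
    v.Ge (μ / 2) (aeval w (prq p i α q) - aeval w q) := by
  have hp0 : (0 : ℝ) < p := by exact_mod_cast hp.out.pos
  obtain ⟨n, hn⟩ : ∃ n, p = n + 1 := ⟨p - 1, by have := hp.out.pos; omega⟩
  have e : aeval w (prq p i α q) - aeval w q =
      ∑ m ∈ Finset.range n, ((cc W (m + 1) : W) : Ω) * (w i - aeval w α) ^ (m + 1) *
        aeval w ((pderiv i)^[m + 1] q) := by
    unfold prq
    rw [hn, Finset.sum_range_succ', map_add, map_sum]
    simp only [cc_zero, C_1, pow_zero, mul_one, Function.iterate_zero, id_eq, one_mul,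
      add_sub_cancel_right, map_mul, map_pow, map_sub, aeval_X, aeval_C]
    rfl
  rw [e]
  refine RVal.Ge.sum _ _ fun m hm => ?_
  rw [Finset.mem_range] at hm
  have h2 := ((TWCY.cc_ge hk (W := W) (m + 1)).mul (TWM.ge_pow hα (m + 1))).mul (h m)
  refine h2.mono ?_
  have h3 : ((m + 1 : ℕ) : ℝ) ≤ p := by
    rw [hn]
    exact_mod_cast (by omega : m + 1 ≤ n + 1)
  have h4 : ((m + 1 : ℕ) : ℝ) * (μ / (2 * p)) ≤ μ / 2 := by
    have h5 : (p : ℝ) * (μ / (2 * p)) = μ / 2 := by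
      field_simp
    rw [← h5]
    exact mul_le_mul_of_nonneg_right h3 (by positivity)
  have h6 : ((m + 1 : ℕ) : ℝ) * -(μ / (2 * p)) = -(((m + 1 : ℕ) : ℝ) * (μ / (2 * p))) := by ring
  rw [h6]
  linarith

/-- **Step A**: `a = q₁(w 0, w 1 ^ p) + ρ₁ w 1`. -/
theorem partA (p : ℕ) [hp : Fact p.Prime] [CharP Ω p] (hk : Ctx0 k v) {q : MvPolynomial (Fin 2) W} (h1 : v.Ge 0 (aeval w (pderiv 1 q)))
    (h0 : v.Ge 0 (aeval w (pderiv 0 q) + U1 * aeval w (pderiv 1 q))) :
    ∃ (ρ₀ ρ₁ : k) (q₁ : MvPolynomial (Fin 2) W), pderiv 1 q₁ = 0 ∧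
      VPos v (aeval w q₁ + algebraMap k Ω ρ₁ * w 1 - aeval w q) ∧
      VPos v (aeval w (pderiv 0 q₁) + algebraMap k Ω ρ₁ * U1 - algebraMap k Ω ρ₀) := by
  have : CharP W p := (W.val : W →+* Ω).charP W.val.injective p
  obtain ⟨ρ₁, hρ₁⟩ := exists_rs0 hk h1
  obtain ⟨ρ₀, hρ₀⟩ := exists_rs0 hk h0
  obtain ⟨b, hb⟩ : ∃ b : MvPolynomial (Fin 2) W, b = q - C (algebraMap k W ρ₁) * X 1 := ⟨_, rfl⟩
  have hb1 : aeval w (pderiv 1 b) = aeval w (pderiv 1 q) - algebraMap k Ω ρ₁ := by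
    rw [hb, map_sub, pderiv_C_mul, pderiv_X_self, mul_one, map_sub, aeval_C]
    rfl
  have hb0 : aeval w (pderiv 0 b) = aeval w (pderiv 0 q) := by
    rw [hb, map_sub, pderiv_C_mul, pderiv_X_of_ne (by decide), mul_zero, sub_zero]
  have h2 : VPos v (aeval w (pderiv 1 b)) := by
    rw [hb1]
    exact hρ₁
  obtain ⟨μ, hμ, h3⟩ := VPos.ge_iff h2
  obtain ⟨α, hα, h4⟩ := TWCY.Lim.neg_eps hD.l1 (ε := μ / (2 * p))
    (by have := hp.out.pos; positivity)
  obtain ⟨β, hβ, h5⟩ := hD.dnsC α hα 0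
  have hμp : 0 ≤ μ / (2 * p) := by positivity
  have h6 : v.Ge (-(μ / (2 * p))) (w 1 - aeval w β) := by
    have h7 := h4.add (h5.mono (by linarith : -(μ / (2 * p)) ≤ 0))
    rwa [sub_add_sub_cancel] at h7
  have h7 := ge_prq hk (p := p) hμ h6 (hD.ge_it1 h3)
  have h8 : pderiv 1 (prq p 1 β b) = 0 := pderiv_prq hβ.pderiv_one b
  refine ⟨ρ₀, ρ₁, prq p 1 β b, h8, ?_, ?_⟩
  · have e : aeval w (prq p 1 β b) + algebraMap k Ω ρ₁ * w 1 - aeval w q =
        aeval w (prq p 1 β b) - aeval w b := by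
      rw [hb, map_sub, map_mul, aeval_C, aeval_X]
      change _ = _ - (aeval w q - algebraMap k Ω ρ₁ * w 1)
      ring
    rw [e]
    exact vpos_of_ge (half_pos hμ) h7
  · rw [← map_sub] at h7
    have h9 := vpos_of_ge (half_pos hμ) (hD.n0 _ _ h7)
    rw [map_sub, map_sub, hb0, map_sub, map_sub, h8, hb1, map_zero] at h9
    have h10 := h9.add hρ₀
    refine cast (congrArg (VPos v) ?_) h10
    ring

/-- **Step B**: the primitive of `U_1`. -/
theorem partB {p : ℕ} [hp : Fact p.Prime] [CharP Ω p] (hk : Ctx0 k v) {ρ₀ ρ₁ : k} {q₁ : MvPolynomial (Fin 2) W} (hq : pderiv 1 q₁ = 0)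
    (h : VPos v (aeval w (pderiv 0 q₁) + algebraMap k Ω ρ₁ * U1 - algebraMap k Ω ρ₀))
    (hU : ρ₁ = 0 ∨ Nr v C₁ 0 U1) :
    ∃ c q₂ : MvPolynomial (Fin 2) W, Fst c ∧ (ρ₁ = 0 → c = 0) ∧ PDv p q₂ ∧
      VPos v (aeval w q₂ + algebraMap k Ω ρ₀ * w 0 - algebraMap k Ω ρ₁ * aeval w c -
        aeval w q₁) := by
  have : CharP W p := (W.val : W →+* Ω).charP W.val.injective p
  have hp0 : (0 : ℝ) < p := by exact_mod_cast hp.out.pos
  -- the primitive
  obtain ⟨c, hc, hc0, h1⟩ : ∃ c : MvPolynomial (Fin 2) W, Fst c ∧ (ρ₁ = 0 → c = 0) ∧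
      VPos v (aeval w (pderiv 0 q₁) + algebraMap k Ω ρ₁ * aeval w (pderiv 0 c) -
        algebraMap k Ω ρ₀) := by
    by_cases hρ : ρ₁ = 0
    · refine ⟨0, zero_mem _, fun _ => rfl, ?_⟩
      rw [hρ, map_zero, zero_mul] at h ⊢
      exact h
    · obtain ⟨y, hy, h1⟩ := hU.resolve_left hρ
      obtain ⟨ζ, hζ⟩ := exists_rs0 hk h1
      obtain ⟨u, hu, h2⟩ := hD.dnsC (y + algebraMap k Ω ζ) (add_mem hy (C₁.algebraMap_mem ζ)) 1
      have h3 : VPos v (U1 - aeval w u) := by
        have h4 := VPos.add hζ (vpos_of_ge one_pos h2)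
        refine cast (congrArg (VPos v) ?_) h4
        ring
      obtain ⟨g, hg⟩ : ∃ g : MvPolynomial (Fin 2) W,
          g = pderiv 0 q₁ + C (algebraMap k W ρ₁) * u - C (algebraMap k W ρ₀) := ⟨_, rfl⟩
      have hge : aeval w g = aeval w (pderiv 0 q₁) + algebraMap k Ω ρ₁ * aeval w u -
          algebraMap k Ω ρ₀ := by
        rw [hg, map_sub, map_add, map_mul, aeval_C, aeval_C]
        rfl
      have h4 : VPos v (aeval w g) := by
        rw [hge]
        have h5 := h.sub (VPos.mul' (hk.ge ρ₁) h3)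
        refine cast (congrArg (VPos v) ?_) h5
        ring
      obtain ⟨μ, hμ, h5⟩ := VPos.ge_iff h4
      have hg1 : pderiv 1 g = 0 := by
        rw [hg, map_sub, map_add, pderiv_C, pderiv_C_mul, hu.pderiv_one, pderiv_comm', hq, map_zero,
          mul_zero, add_zero, sub_zero]
      obtain ⟨n, hn⟩ : ∃ n, p = n + 1 + 1 := ⟨p - 2, by have := hp.out.two_le; omega⟩
      have h6 := hD.ge_it0 hg1 h5 (n + 1)
      have e1 : (pderiv 0)^[n + 1] g = C (algebraMap k W ρ₁) * (pderiv 0)^[n + 1] u := by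
        have e2 : ∀ m : ℕ, (pderiv 0)^[m + 1] g =
            (pderiv 0)^[m + 2] q₁ + C (algebraMap k W ρ₁) * (pderiv 0)^[m + 1] u := by
          intro m
          induction m with
          | zero =>
            simp only [zero_add, Function.iterate_succ_apply',
              Function.iterate_zero, id_eq]
            rw [hg, map_sub, map_add, pderiv_C, pderiv_C_mul, sub_zero]
          | succ m ih =>
            rw [Function.iterate_succ_apply', ih, map_add, pderiv_C_mul,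
              ← Function.iterate_succ_apply' (⇑(pderiv 0)), ← Function.iterate_succ_apply' (⇑(pderiv 0))]
        rw [e2 n, show n + 2 = p from hn.symm, pderiv_it_p 0 q₁ hp.out.ne_zero, zero_add]
      rw [e1, map_mul, aeval_C] at h6
      have h7 : v.Ge μ (aeval w ((pderiv 0)^[n + 1] u)) := by
        have h8 := (hk.ge ρ₁⁻¹).mul h6
        rw [zero_add] at h8
        refine cast (congrArg (v.Ge μ) ?_) h8
        change algebraMap k Ω ρ₁⁻¹ * (algebraMap k Ω ρ₁ * _) = _
        rw [← mul_assoc, ← map_mul, inv_mul_cancel₀ hρ, map_one, one_mul]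
      -- the centre
      obtain ⟨α, hα, h8⟩ := TWCY.Lim.neg_eps hD.l0 (ε := μ / (2 * p)) (by positivity)
      refine ⟨prim p 0 (C ⟨α, hα⟩) u, fst_prim hu, fun h9 => absurd h9 hρ, ?_⟩
      have h9 : v.Ge (μ / 2) (aeval w (pderiv 0 (prim p 0 (C ⟨α, hα⟩) u)) - aeval w u) := by
        rw [pderiv_prim (pderiv_C) u, map_sub, sub_sub_cancel_left]
        refine RVal.Ge.neg ?_
        rw [map_mul, map_mul, map_pow, map_sub, aeval_C, aeval_X, aeval_C,
          show p - 1 = n + 1 by omega]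
        have h10 := ((TWCY.cc_ge hk (W := W) (n + 1)).mul (TWM.ge_pow h8 (n + 1))).mul h7
        refine h10.mono ?_
        have h11 : ((n + 1 : ℕ) : ℝ) ≤ p := by
          rw [hn]
          exact_mod_cast (by omega : n + 1 ≤ n + 1 + 1)
        have h12 : ((n + 1 : ℕ) : ℝ) * (μ / (2 * p)) ≤ μ / 2 := by
          have h13 : (p : ℝ) * (μ / (2 * p)) = μ / 2 := by
            field_simp
          rw [← h13]
          exact mul_le_mul_of_nonneg_right h11 (by positivity)
        have h14 : ((n + 1 : ℕ) : ℝ) * -(μ / (2 * p)) = -(((n + 1 : ℕ) : ℝ) * (μ / (2 * p))) := by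
          ring
        rw [h14]
        linarith
      have h10 := h4.add (VPos.mul' (hk.ge ρ₁) (vpos_of_ge (half_pos hμ) h9))
      rw [hge] at h10
      refine cast (congrArg (VPos v) ?_) h10
      ring
  -- the projection in the first variable
  obtain ⟨b, hb⟩ : ∃ b : MvPolynomial (Fin 2) W,
      b = q₁ + C (algebraMap k W ρ₁) * c - C (algebraMap k W ρ₀) * X 0 := ⟨_, rfl⟩
  have hb1 : pderiv 1 b = 0 := by
    rw [hb, map_sub, map_add, pderiv_C_mul, pderiv_C_mul, hq, hc.pderiv_one,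
      pderiv_X_of_ne (by decide), mul_zero, mul_zero, add_zero, sub_zero]
  have hbe : aeval w b = aeval w q₁ + algebraMap k Ω ρ₁ * aeval w c - algebraMap k Ω ρ₀ * w 0 := by
    rw [hb, map_sub, map_add, map_mul, map_mul, aeval_C, aeval_C, aeval_X]
    rfl
  have hb0 : VPos v (aeval w (pderiv 0 b)) := by
    have e : aeval w (pderiv 0 b) = aeval w (pderiv 0 q₁) +
        algebraMap k Ω ρ₁ * aeval w (pderiv 0 c) - algebraMap k Ω ρ₀ := by
      rw [hb, map_sub, map_add, pderiv_C_mul, pderiv_C_mul, pderiv_X_self, mul_one, map_sub,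
        map_add, map_mul, aeval_C, aeval_C]
      rfl
    rw [e]
    exact h1
  obtain ⟨μ, hμ, h2⟩ := VPos.ge_iff hb0
  obtain ⟨α, hα, h3⟩ := TWCY.Lim.neg_eps hD.l0 (ε := μ / (2 * p)) (by positivity)
  have h4 : v.Ge (-(μ / (2 * p))) (w 0 - aeval w (C ⟨α, hα⟩ : MvPolynomial (Fin 2) W)) := by
    rw [aeval_C]
    exact h3
  have hb01 : pderiv 1 (pderiv 0 b) = 0 := by
    rw [pderiv_comm', hb1, map_zero]
  have h5 : ∀ m, v.Ge μ (aeval w ((pderiv 0)^[m + 1] b)) := by
    intro m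
    rw [Function.iterate_succ_apply]
    exact hD.ge_it0 hb01 h2 m
  have h6 := ge_prq hk (p := p) hμ h4 h5
  refine ⟨c, prq p 0 (C ⟨α, hα⟩) b, hc, hc0, pdv_of_pderiv ?_, ?_⟩
  · intro i
    fin_cases i
    · exact pderiv_prq pderiv_C b
    · exact pderiv_prq_ne (by decide) pderiv_C hb1
  · have h7 := vpos_of_ge (half_pos hμ) h6
    rw [hbe] at h7
    refine cast (congrArg (VPos v) ?_) h7
    ring

end Pl

end Pool.Agent.TWCU
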