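import Pool.Agent.Lib.TWCU.NFb

/-!
# The normal form, `e = 0` (row R10): the frame, norms of the derivations, `U_1 ∈ B + O_0`

* `FrT`: the isometries `T c`, `w 0 ↦ w 0 + c 0`, `w 1 ↦ w 1 + U(c 0) + c 1`;
* `FrT.pl`: the derivations of the polynomials have norm `≤ 0`;
* `FrT.nr`: if `ρ₁ U_1` is in `F + (> 0)`, `ρ₁ ≠ 0`, then `U_1 ∈ B + O_0`.
-/

set_option autoImplicit false

open MvPolynomial

namespace Pool.Agent.TWCU

open Pool.Agent.H15JM (RVal)
open Pool.Agent.LU1 (VPos)
open Pool.Agent.D2 (Ctx0)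
open Pool.Agent.TWM
open Pool.Agent.TWS (IsoE SphC)
open Pool.Agent.TWLY
open Pool.Agent.TWCY

universe u

variable {k Ω : Type u} [Field k] [Field Ω] [Algebra k Ω] {v : RVal Ω}
  {W : IntermediateField k Ω} {w : Fin 2 → Ω} {T : (Fin 2 → k) → Ω →ₐ[k] Ω} {U : Polynomial Ω}

/-! ### Polynomials in one variable -/

/-- The values of a polynomial on `k` bound its coefficients. -/
theorem pol_ge [Infinite k] (hk : Ctx0 k v) {P : Polynomial Ω} {b : ℝ}
    (h : ∀ s : k, v.Ge b (P.eval (algebraMap k Ω s))) (l : ℕ) : v.Ge b (P.coeff l) := by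
  classical
  have h1 := ge_coeff hk (r := b) (f := Polynomial.aeval (X 0 : MvPolynomial (Fin 2) Ω) P)
    (fun c => by
      have e : eval (pt c) (Polynomial.aeval (X 0 : MvPolynomial (Fin 2) Ω) P) =
          P.eval (algebraMap k Ω (c 0)) := by
        rw [Polynomial.aeval_eq_sum_range, map_sum, Polynomial.eval_eq_sum_range]
        refine Finset.sum_congr rfl fun i _ => ?_
        rw [smul_eq_C_mul, map_mul, map_pow, eval_C, eval_X]
        rfl
      rw [e]
      exact h _) (Finsupp.single 0 l)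
  have e : coeff (Finsupp.single 0 l) (Polynomial.aeval (X 0 : MvPolynomial (Fin 2) Ω) P) =
      P.coeff l := by
    rw [Polynomial.aeval_eq_sum_range, coeff_sum]
    by_cases hl : l ≤ P.natDegree
    · rw [Finset.sum_eq_single l]
      · rw [smul_eq_C_mul, coeff_C_mul, coeff_X_pow, if_pos rfl, mul_one]
      · intro j _ hj
        rw [smul_eq_C_mul, coeff_C_mul, coeff_X_pow, if_neg, mul_zero]
        intro h2
        exact hj (Finsupp.single_left_inj (by decide : (1 : ℕ) ≠ 0) |>.1 (by
          exact absurd h2 (fun h3 => hj (by simpa using DFunLike.congr_fun h3 0))))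
      · intro h2
        exact absurd (Finset.mem_range.2 (Nat.lt_succ_of_le hl)) h2
    · rw [Polynomial.coeff_eq_zero_of_natDegree_lt (not_le.1 hl)]
      refine Finset.sum_eq_zero fun j hj => ?_
      rw [Finset.mem_range] at hj
      rw [smul_eq_C_mul, coeff_C_mul, coeff_X_pow, if_neg, mul_zero]
      intro h2
      have h3 : j = l := by simpa using DFunLike.congr_fun h2 0
      omega
  rwa [e] at h1

theorem eval_aevalP (g : Fin 2 → Polynomial Ω) (s : Ω) (q : MvPolynomial (Fin 2) W) :
    (aeval g q : Polynomial Ω).eval s = aeval (fun i => (g i).eval s) q := by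
  induction q using MvPolynomial.induction_on with
  | C a =>
    rw [aeval_C, aeval_C]
    change (Polynomial.C (a : Ω)).eval s = _
    rw [Polynomial.eval_C]
    rfl
  | add a b ha hb => rw [map_add, map_add, Polynomial.eval_add, ha, hb]
  | mul_X a i ha => rw [map_mul, map_mul, Polynomial.eval_mul, ha, aeval_X, aeval_X]

theorem derivative_aevalP (g : Fin 2 → Polynomial Ω) (q : MvPolynomial (Fin 2) W) :
    Polynomial.derivative (aeval g q : Polynomial Ω) =
      aeval g (pderiv 0 q) * Polynomial.derivative (g 0) +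
        aeval g (pderiv 1 q) * Polynomial.derivative (g 1) := by
  induction q using MvPolynomial.induction_on with
  | C a =>
    rw [aeval_C, pderiv_C, pderiv_C, map_zero, zero_mul, zero_mul, add_zero]
    change Polynomial.derivative (Polynomial.C (a : Ω)) = 0
    rw [Polynomial.derivative_C]
  | add a b ha hb =>
    simp only [map_add]
    rw [ha, hb]
    ring
  | mul_X a j ha =>
    rw [map_mul, Polynomial.derivative_mul, ha, pderiv_mul, pderiv_mul, aeval_X]
    simp only [map_add, map_mul, aeval_X]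
    fin_cases j
    · simp only [Fin.zero_eta]
      rw [pderiv_X_self, pderiv_X_of_ne (by decide), map_one, map_zero]
      ring
    · simp only [Fin.mk_one]
      rw [pderiv_X_self, pderiv_X_of_ne (by decide), map_one, map_zero]
      ring

theorem map_aevalW {τ : Ω →ₐ[k] Ω} (hτ : ∀ f ∈ W, τ f = f) (y : Fin 2 → Ω)
    (q : MvPolynomial (Fin 2) W) : τ (aeval y q) = aeval (fun i => τ (y i)) q := by
  induction q using MvPolynomial.induction_on with
  | C a =>
    rw [aeval_C, aeval_C]
    exact hτ _ a.2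
  | add a b ha hb => rw [map_add, map_add, map_add, ha, hb]
  | mul_X a i ha => rw [map_mul, map_mul, map_mul, ha, aeval_X, aeval_X]

/-! ### The frame -/

/-- The isometries, `U` any shape. -/
structure FrT (v : RVal Ω) (W : IntermediateField k Ω) (w : Fin 2 → Ω)
    (T : (Fin 2 → k) → Ω →ₐ[k] Ω) (U : Polynomial Ω) : Prop where
  iso : ∀ c, IsoE v v (T c)
  fix : ∀ c, ∀ f ∈ W, T c f = f
  Tw : ∀ c, T c (w 0) = w 0 + algebraMap k Ω (c 0)
  Tu : ∀ c, T c (w 1) = w 1 + U.eval (algebraMap k Ω (c 0)) + algebraMap k Ω (c 1)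
  U0 : U.coeff 0 = 0
  Ul : ∀ j, Lim v (cadj v W (w 0)) 0 (U.coeff j)

/-- translation in `w 0` -/
noncomputable def g0 (w : Fin 2 → Ω) (U : Polynomial Ω) : Fin 2 → Polynomial Ω :=
  ![Polynomial.C (w 0) + Polynomial.X, Polynomial.C (w 1) + U]

/-- translation in `w 1` -/
noncomputable def g1 (w : Fin 2 → Ω) : Fin 2 → Polynomial Ω :=
  ![Polynomial.C (w 0), Polynomial.C (w 1) + Polynomial.X]

namespace FrT

variable (hF : FrT v W w T U)
include hF

theorem T_g0 (s : k) (q : MvPolynomial (Fin 2) W) :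
    T ![s, 0] (aeval w q) = (aeval (g0 w U) q : Polynomial Ω).eval (algebraMap k Ω s) := by
  rw [map_aevalW (hF.fix _), eval_aevalP]
  congr 2
  ext i
  fin_cases i
  · change T ![s, 0] (w 0) = (Polynomial.C (w 0) + Polynomial.X).eval (algebraMap k Ω s)
    rw [hF.Tw, Polynomial.eval_add, Polynomial.eval_C, Polynomial.eval_X]
    rfl
  · change T ![s, 0] (w 1) = (Polynomial.C (w 1) + U).eval (algebraMap k Ω s)
    rw [hF.Tu, Polynomial.eval_add, Polynomial.eval_C]
    simp

theorem T_g1 (s : k) (q : MvPolynomial (Fin 2) W) :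
    T ![0, s] (aeval w q) = (aeval (g1 w) q : Polynomial Ω).eval (algebraMap k Ω s) := by
  have h0 : U.eval 0 = 0 := by rw [← Polynomial.coeff_zero_eq_eval_zero, hF.U0]
  rw [map_aevalW (hF.fix _), eval_aevalP]
  congr 2
  ext i
  fin_cases i
  · change T ![0, s] (w 0) = (Polynomial.C (w 0)).eval (algebraMap k Ω s)
    rw [hF.Tw, Polynomial.eval_C]
    simp
  · change T ![0, s] (w 1) = (Polynomial.C (w 1) + Polynomial.X).eval (algebraMap k Ω s)
    rw [hF.Tu, Polynomial.eval_add, Polynomial.eval_C, Polynomial.eval_X]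
    simp [h0]

theorem ge_g0 [Infinite k] (hk : Ctx0 k v) {r : ℝ} {q : MvPolynomial (Fin 2) W}
    (h : v.Ge r (aeval w q)) (l : ℕ) : v.Ge r ((aeval (g0 w U) q : Polynomial Ω).coeff l) := by
  refine pol_ge hk (fun s => ?_) l
  rw [← hF.T_g0]
  exact IsoE.ge' (hF.iso _) h

theorem ge_g1 [Infinite k] (hk : Ctx0 k v) {r : ℝ} {q : MvPolynomial (Fin 2) W}
    (h : v.Ge r (aeval w q)) (l : ℕ) : v.Ge r ((aeval (g1 w) q : Polynomial Ω).coeff l) := by
  refine pol_ge hk (fun s => ?_) l
  rw [← hF.T_g1]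
  exact IsoE.ge' (hF.iso _) h

omit hF in
theorem coeff_one_g1 (q : MvPolynomial (Fin 2) W) :
    (aeval (g1 w) q : Polynomial Ω).coeff 1 = aeval w (pderiv 1 q) := by
  have h1 := Polynomial.coeff_derivative (aeval (g1 w) q : Polynomial Ω) 0
  rw [Nat.cast_zero, zero_add, zero_add, mul_one] at h1
  have e0 : Polynomial.derivative (g1 w 0) = 0 := Polynomial.derivative_C
  have e1 : Polynomial.derivative (g1 w 1) = 1 := by
    change Polynomial.derivative (Polynomial.C (w 1) + Polynomial.X) = 1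
    rw [Polynomial.derivative_add, Polynomial.derivative_C, Polynomial.derivative_X, zero_add]
  rw [← h1, derivative_aevalP, e0, e1, mul_zero, zero_add, mul_one,
    Polynomial.coeff_zero_eq_eval_zero, eval_aevalP]
  congr 2
  ext i
  fin_cases i
  · change (Polynomial.C (w 0)).eval 0 = w 0
    rw [Polynomial.eval_C]
  · change (Polynomial.C (w 1) + Polynomial.X).eval 0 = w 1
    simp

theorem coeff_one_g0 (q : MvPolynomial (Fin 2) W) :
    (aeval (g0 w U) q : Polynomial Ω).coeff 1 =
      aeval w (pderiv 0 q) + U.coeff 1 * aeval w (pderiv 1 q) := by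
  have h1 := Polynomial.coeff_derivative (aeval (g0 w U) q : Polynomial Ω) 0
  rw [Nat.cast_zero, zero_add, zero_add, mul_one] at h1
  have e0 : Polynomial.derivative (g0 w U 0) = 1 := by
    change Polynomial.derivative (Polynomial.C (w 0) + Polynomial.X) = 1
    rw [Polynomial.derivative_add, Polynomial.derivative_C, Polynomial.derivative_X, zero_add]
  have e1 : Polynomial.derivative (g0 w U 1) = Polynomial.derivative U := by
    change Polynomial.derivative (Polynomial.C (w 1) + U) = _
    rw [Polynomial.derivative_add, Polynomial.derivative_C, zero_add]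
  have e2 : (fun i => (g0 w U i).eval 0) = w := by
    ext i
    fin_cases i
    · change (Polynomial.C (w 0) + Polynomial.X).eval 0 = w 0
      simp
    · change (Polynomial.C (w 1) + U).eval 0 = w 1
      rw [Polynomial.eval_add, Polynomial.eval_C, ← Polynomial.coeff_zero_eq_eval_zero, hF.U0,
        add_zero]
  have e3 : (Polynomial.derivative U).coeff 0 = U.coeff 1 := by
    rw [Polynomial.coeff_derivative]
    simp
  rw [← h1, derivative_aevalP, e0, e1, mul_one, Polynomial.coeff_add, Polynomial.mul_coeff_zero,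
    e3, Polynomial.coeff_zero_eq_eval_zero, Polynomial.coeff_zero_eq_eval_zero, eval_aevalP,
    eval_aevalP, e2]
  ring

end FrT

/-! ### Density -/

section dens

variable [IsAlgClosed Ω]

theorem exists_fst_near (hw : TL v W (w 0) 0) {y : Ω} (hy : y ∈ cadj v W (w 0)) (b : ℝ) :
    ∃ q : MvPolynomial (Fin 2) W, Fst q ∧ v.Ge b (y - aeval w q) := by
  obtain ⟨f, hf, h1⟩ := hw.dense hy b
  refine ⟨∑ i ∈ Finset.range (f.natDegree + 1), C (⟨f.coeff i, hf i⟩ : W) * X 0 ^ i,
    sum_mem fun i _ => mul_mem (fst_C _) (pow_mem fst_X i), ?_⟩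
  have e : aeval w (∑ i ∈ Finset.range (f.natDegree + 1), C (⟨f.coeff i, hf i⟩ : W) * X 0 ^ i) =
      f.eval (w 0) := by
    rw [map_sum, Polynomial.eval_eq_sum_range]
    refine Finset.sum_congr rfl fun i _ => ?_
    rw [map_mul, map_pow, aeval_C, aeval_X]
    rfl
  rw [e]
  exact h1

theorem exists_pol_near (hw : TL v W (w 0) 0) (hu : TL v (cadj v W (w 0)) (w 1) 0) {y : Ω}
    (hy : y ∈ cadj v (cadj v W (w 0)) (w 1)) (b : ℝ) :
    ∃ q : MvPolynomial (Fin 2) W, v.Ge b (y - aeval w q) := by
  obtain ⟨f, hf, h1⟩ := hu.dense hy b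
  have hc : ∀ i, ∃ q : MvPolynomial (Fin 2) W, Fst q ∧
      v.Ge (b - v (w 1 ^ i)) (f.coeff i - aeval w q) := fun i => exists_fst_near hw (hf i) _
  choose g _ h2 using hc
  refine ⟨∑ i ∈ Finset.range (f.natDegree + 1), g i * X 1 ^ i, ?_⟩
  have e1 : y - aeval w (∑ i ∈ Finset.range (f.natDegree + 1), g i * X 1 ^ i) =
      (y - f.eval (w 1)) +
        ∑ i ∈ Finset.range (f.natDegree + 1), (f.coeff i - aeval w (g i)) * w 1 ^ i := by
    rw [map_sum, Polynomial.eval_eq_sum_range]
    simp_rw [sub_mul, map_mul, map_pow, aeval_X]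
    rw [Finset.sum_sub_distrib]
    ring
  rw [e1]
  refine h1.add (RVal.Ge.sum _ _ fun i _ => ?_)
  exact ((h2 i).mul (RVal.ge_self (v := v) (w 1 ^ i))).mono (by linarith)

theorem FrT.pl [Infinite k] (hk : Ctx0 k v) (hF : FrT v W w T U) (hw : TL v W (w 0) 0)
    (hu : TL v (cadj v W (w 0)) (w 1) 0) :
    Pl v W (cadj v W (w 0)) (cadj v (cadj v W (w 0)) (w 1)) w (U.coeff 1) where
  le := le_cadj v W _
  le' := le_cadj v _ _
  wC := self_mem_cadj v W _
  wF := self_mem_cadj v _ _
  dnsC := fun _ hy r => exists_fst_near hw hy r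
  dns := fun _ hy r => exists_pol_near hw hu hy r
  l0 := hw.lim
  l1 := hu.lim
  n1 := fun r q h => by
    have := hF.ge_g1 hk h 1
    rwa [FrT.coeff_one_g1] at this
  n0 := fun r q h => by
    have := hF.ge_g0 hk h 1
    rwa [hF.coeff_one_g0] at this

end dens

end Pool.Agent.TWCU
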