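import Pool.Agent.Lib.TWCU.NFc

/-!
# The normal form, `e = 0` (row R10): `U_1 ∈ B + O_0`

`B = W⟨w 0⟩`, `F = B⟨w 1⟩`.  If `U_1 ∈ F + (> 0)` is a value of a polynomial in `w 0`, `w 1 ^ p`, then
`U_1 = c + ∑_(i ≥ 1) ζ_i (w 1) ^ (p ^ i)`, and all `ζ_i = 0`: the law `T_s U_1 = U'(s)` modulo `O_0`
makes all the `U_j` torsion modulo `B + O_0`, by downward induction on `j`.
-/

set_option autoImplicit false

open MvPolynomial

namespace Pool.Agent.TWCU

open Pool.Agent.H15JM (RVal)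
open Pool.Agent.LU1 (VPos)
open Pool.Agent.D2 (Ctx0)
open Pool.Agent.TWM
open Pool.Agent.TWS (IsoE SphC)
open Pool.Agent.TWLY
open Pool.Agent.TWCY

universe u

variable {k Ω : Type u} [Field k] [Field Ω] [Algebra k Ω] {v : RVal Ω}
  {W : IntermediateField k Ω} {w : Fin 2 → Ω} {T : (Fin 2 → k) → Ω →ₐ[k] Ω} {U : Polynomial Ω}

/-! ### Torsion -/

section tor

variable (p : ℕ) [hp : Fact p.Prime] [CharP Ω p]

/-- The elements with a `p^t`-th power in `A + O_0`. -/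
def Tor (hk : Ctx0 k v) (A : IntermediateField k Ω) : Submodule k Ω where
  carrier := {y | ∃ t : ℕ, Nr v A 0 (y ^ p ^ t)}
  zero_mem' := ⟨0, 0, zero_mem _, by
    rw [zero_pow (pow_ne_zero _ hp.out.ne_zero), sub_zero]
    exact fun h => absurd rfl h⟩
  add_mem' := by
    have key : ∀ (y : Ω) (t s : ℕ), Nr v A 0 (y ^ p ^ t) → Nr v A 0 (y ^ p ^ (t + s)) := by
      intro y t s h
      obtain ⟨a, ha, h1⟩ := h
      refine ⟨a ^ p ^ s, pow_mem ha _, ?_⟩
      have e : y ^ p ^ (t + s) - a ^ p ^ s = (y ^ p ^ t - a) ^ p ^ s := by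
        rw [sub_pow_char_pow, ← pow_mul, ← pow_add]
      rw [e]
      exact (TWM.ge_pow h1 _).mono (by rw [mul_zero])
    rintro x y ⟨t, h⟩ ⟨s, h'⟩
    obtain ⟨a, ha, h1⟩ := key x t s h
    obtain ⟨b, hb, h2⟩ := key y s t h'
    rw [add_comm s t] at h2
    refine ⟨t + s, a + b, add_mem ha hb, ?_⟩
    rw [add_pow_char_pow, add_sub_add_comm]
    exact h1.add h2
  smul_mem' := by
    rintro c y ⟨t, a, ha, h1⟩
    refine ⟨t, algebraMap k Ω c ^ p ^ t * a, mul_mem (pow_mem (A.algebraMap_mem c) _) ha, ?_⟩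
    rw [Algebra.smul_def, mul_pow, ← mul_sub]
    have h2 := (TWM.ge_pow (hk.ge c) (p ^ t)).mul h1
    rwa [mul_zero, zero_add] at h2

variable {p} {A : IntermediateField k Ω} {hk : Ctx0 k v}

theorem mem_Tor {y : Ω} : y ∈ Tor p hk A ↔ ∃ t : ℕ, Nr v A 0 (y ^ p ^ t) := Iff.rfl

theorem Tor.of_mem {y : Ω} (hy : y ∈ A) : y ∈ Tor p hk A :=
  ⟨0, y, hy, by
    rw [pow_zero, pow_one, sub_self]
    exact fun h => absurd rfl h⟩

theorem Tor.of_ge {y : Ω} (hy : v.Ge 0 y) : y ∈ Tor p hk A :=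
  ⟨0, 0, zero_mem _, by rwa [pow_zero, pow_one, sub_zero]⟩

theorem Tor.of_pow {y : Ω} {i : ℕ} (hy : y ^ p ^ i ∈ Tor p hk A) : y ∈ Tor p hk A := by
  obtain ⟨t, h⟩ := hy
  rw [← pow_mul, ← pow_add] at h
  exact ⟨i + t, h⟩

theorem Tor.pow {y : Ω} (i : ℕ) (hy : y ∈ Tor p hk A) : y ^ p ^ i ∈ Tor p hk A := by
  obtain ⟨t, a, ha, h⟩ := hy
  refine ⟨t, a ^ p ^ i, pow_mem ha _, ?_⟩
  have e : (y ^ p ^ i) ^ p ^ t - a ^ p ^ i = (y ^ p ^ t - a) ^ p ^ i := by
    rw [sub_pow_char_pow, ← pow_mul, ← pow_mul, mul_comm]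
  rw [e]
  exact (TWM.ge_pow h _).mono (by rw [mul_zero])

/-- An additive polynomial over `k` in a limit is not torsion. -/
theorem not_tor [IsAlgClosed Ω] {u : Ω} (hu : TL v A u 0) {e : ℕ} {ζ : ℕ → k} {i : ℕ} (hi : i < e)
    (hζ : ζ i ≠ 0) : ∑ j ∈ Finset.range e, algebraMap k Ω (ζ j) * u ^ p ^ j ∉ Tor p hk A := by
  rintro ⟨t, a, ha, h⟩
  obtain ⟨c, hc⟩ : ∃ c : ℕ → Ω, c = fun j => if t ≤ j then algebraMap k Ω (ζ (j - t)) ^ p ^ t else 0 :=
    ⟨_, rfl⟩
  have hcA : ∀ j, c j ∈ TWM.algc A := by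
    intro j
    rw [hc]
    dsimp only
    split_ifs
    · exact pow_mem (IntermediateField.algebraMap_mem _ _) _
    · exact zero_mem _
  have e1 : (∑ j ∈ Finset.range e, algebraMap k Ω (ζ j) * u ^ p ^ j) ^ p ^ t =
      ∑ j ∈ Finset.range (e + t), c j * u ^ p ^ j := by
    have e2 : ∑ j ∈ Finset.range t, c j * u ^ p ^ j = 0 := by
      refine Finset.sum_eq_zero fun j hj => ?_
      rw [Finset.mem_range] at hj
      rw [hc]
      dsimp only
      rw [if_neg (not_le.2 hj), zero_mul]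
    rw [sum_pow_char_pow, add_comm e t, Finset.sum_range_add, e2, zero_add]
    refine Finset.sum_congr rfl fun j _ => ?_
    rw [hc]
    dsimp only
    rw [if_pos (Nat.le_add_right t j), Nat.add_sub_cancel_left, mul_pow, ← pow_mul, ← pow_add,
      add_comm j t]
  have h0 : c (t + i) = algebraMap k Ω (ζ i ^ p ^ t) := by
    rw [hc]
    dsimp only
    rw [if_pos (Nat.le_add_right t i), Nat.add_sub_cancel_left, map_pow]
  have hne : ζ i ^ p ^ t ≠ 0 := pow_ne_zero _ hζ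
  have hne' : algebraMap k Ω (ζ i ^ p ^ t) ≠ 0 := (map_ne_zero _).2 hne
  have hv : v (algebraMap k Ω (ζ i ^ p ^ t)) = 0 := hk.triv _ hne
  obtain ⟨h2, h3⟩ := hu.germ_far p hcA (e := e + t) (i := t + i) (by omega) (by rw [h0]; exact hne')
    (isAlgebraic_algebraMap (R := A) (⟨a, ha⟩ : A))
  rw [e1] at h
  have h4 := h (sub_ne_zero.2 h2)
  have h5 : v ((∑ j ∈ Finset.range (e + t), c j * u ^ p ^ j) - a) < v (c (t + i)) + (p ^ (t + i) : ℕ) * 0 :=
    h3
  rw [h0] at h5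
  linarith

end tor

/-! ### The law -/

section law

theorem FrT.comp_fst (hF : FrT v W w T U) {q : MvPolynomial (Fin 2) W} (hq : Fst q) (s s' : k) :
    T ![s, 0] (T ![s', 0] (aeval w q)) = T ![s + s', 0] (aeval w q) := by
  unfold Fst at hq
  induction hq using Algebra.adjoin_induction with
  | mem x hx =>
    rw [Set.mem_singleton_iff] at hx
    rw [hx, aeval_X, hF.Tw, hF.Tw, map_add, hF.Tw, AlgHom.commutes]
    change w 0 + algebraMap k Ω s + algebraMap k Ω s' = w 0 + algebraMap k Ω (s + s')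
    rw [map_add]
    ring
  | algebraMap r =>
    rw [algebraMap_eq, aeval_C]
    change T ![s, 0] (T ![s', 0] (r : Ω)) = T ![s + s', 0] (r : Ω)
    rw [hF.fix _ _ r.2, hF.fix _ _ r.2, hF.fix _ _ r.2]
  | add x y _ _ hx hy => simp only [map_add, hx, hy]
  | mul x y _ _ hx hy => simp only [map_mul, hx, hy]

variable [IsAlgClosed Ω]

theorem FrT.comp_B (hF : FrT v W w T U) (hw : TL v W (w 0) 0) {y : Ω}
    (hy : y ∈ cadj v W (w 0)) (s s' : k) :
    T ![s, 0] (T ![s', 0] y) = T ![s + s', 0] y := by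
  rw [← sub_eq_zero]
  refine eq_zero_of_ge (v := v) fun r => ?_
  obtain ⟨q, hq, h1⟩ := exists_fst_near hw hy r
  have h2 := (IsoE.ge' (hF.iso ![s, 0]) (IsoE.ge' (hF.iso ![s', 0]) h1)).sub
    (IsoE.ge' (hF.iso ![s + s', 0]) h1)
  rw [map_sub, map_sub, map_sub, hF.comp_fst hq] at h2
  refine cast (congrArg (v.Ge r) ?_) h2
  ring

/-- The law of `w 1`, modulo `O_0`. -/
theorem FrT.law (hF : FrT v W w T U) (hw : TL v W (w 0) 0)
    (hu : Lim v (cadj v W (w 0)) 0 (w 1)) (s s' : k) :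
    v.Ge 0 (T ![s, 0] (T ![s', 0] (w 1)) - T ![s + s', 0] (w 1)) := by
  refine ge_zero_of_eps fun ε hε => ?_
  obtain ⟨γ, hγ, h1⟩ := TWCY.Lim.neg_eps hu hε
  have h2 := (IsoE.ge' (hF.iso ![s, 0]) (IsoE.ge' (hF.iso ![s', 0]) h1)).sub
    (IsoE.ge' (hF.iso ![s + s', 0]) h1)
  rw [map_sub, map_sub, map_sub, hF.comp_B hw hγ] at h2
  refine cast (congrArg (v.Ge (-ε)) ?_) h2
  ring

/-- `T_s U_1 = U'(s)` modulo `O_0`. -/
theorem FrT.law1 [Infinite k] (hk : Ctx0 k v) (hF : FrT v W w T U) (hw : TL v W (w 0) 0)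
    (hu : Lim v (cadj v W (w 0)) 0 (w 1)) (s : k) :
    v.Ge 0 (T ![s, 0] (U.coeff 1) - (Polynomial.derivative U).eval (algebraMap k Ω s)) := by
  have h1 := pol_ge hk (b := 0) (P := Polynomial.C (U.eval (algebraMap k Ω s)) +
    U.map (T ![s, 0] : Ω →ₐ[k] Ω).toRingHom - Polynomial.taylor (algebraMap k Ω s) U) (fun s' => by
      have h2 := hF.law hw hu s s'
      rw [hF.Tu, hF.Tu, map_add, map_add, hF.Tu, AlgHom.commutes] at h2
      have e1 : ((U.map (T ![s, 0] : Ω →ₐ[k] Ω).toRingHom).eval (algebraMap k Ω s')) =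
          T ![s, 0] (U.eval (algebraMap k Ω s')) := by
        rw [Polynomial.eval_map, Polynomial.eval_eq_sum_range, Polynomial.eval₂_eq_sum_range,
          map_sum]
        refine Finset.sum_congr rfl fun i _ => ?_
        rw [map_mul, map_pow, AlgHom.commutes]
        rfl
      rw [Polynomial.eval_sub, Polynomial.eval_add, Polynomial.eval_C, e1,
        Polynomial.taylor_eval]
      refine cast (congrArg (v.Ge 0) ?_) h2
      simp only [Matrix.cons_val_zero, Matrix.cons_val_one, map_zero, add_zero, map_add]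
      rw [add_comm (algebraMap k Ω s') (algebraMap k Ω s)]
      ring) 1
  rw [Polynomial.coeff_sub, Polynomial.coeff_add, Polynomial.coeff_C_of_ne_zero one_ne_zero, zero_add,
    Polynomial.coeff_map, Polynomial.taylor_coeff_one] at h1
  exact h1

end law

end Pool.Agent.TWCU
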