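import Pool.Agent.Lib.TWCU.NFd

/-!
# The normal form, `e = 0` (row R10): `U_1 ∈ B + O_0`, the proof
-/

set_option autoImplicit false

open MvPolynomial

namespace Pool.Agent.TWCU

open Pool.Agent.H15JM (RVal)
open Pool.Agent.LU1 (VPos)
open Pool.Agent.D2 (Ctx0)
open Pool.Agent.TWM
open Pool.Agent.TWS (IsoE SphC)
open Pool.Agent.TWLY
open Pool.Agent.TWCY

universe u

variable {k Ω : Type u} [Field k] [Field Ω] [Algebra k Ω] {v : RVal Ω}
  {W : IntermediateField k Ω} {w : Fin 2 → Ω} {T : (Fin 2 → k) → Ω →ₐ[k] Ω} {U : Polynomial Ω}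

theorem aevalP_mem {B : IntermediateField k Ω} (hWB : W ≤ B) {g : Fin 2 → Polynomial Ω}
    (hg : ∀ i, g i ∈ PI B) (q : MvPolynomial (Fin 2) W) : (aeval g q : Polynomial Ω) ∈ PI B := by
  induction q using MvPolynomial.induction_on with
  | C a =>
    rw [aeval_C]
    exact C_mem_PI (hWB a.2)
  | add a b ha hb =>
    rw [map_add]
    exact add_mem ha hb
  | mul_X a i ha =>
    rw [map_mul, aeval_X]
    exact mul_mem ha (hg i)

variable (p : ℕ) [hp : Fact p.Prime] [hc : CharP Ω p]

omit [Field k] [Algebra k Ω] in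
theorem coeff_pow_mul (P : Polynomial Ω) (i n : ℕ) :
    (P ^ p ^ i).coeff (p ^ i * n) = P.coeff n ^ p ^ i := by
  have _ : ExpChar Ω p := ExpChar.prime hp.out
  rw [← Polynomial.map_iterateFrobenius_expand p P i, Polynomial.coeff_map, mul_comm,
    Polynomial.coeff_expand_mul (pow_pos hp.out.pos i), iterateFrobenius_def]

omit [Field k] [Algebra k Ω] in
theorem coeff_pow_or (P : Polynomial Ω) (i m : ℕ) :
    (P ^ p ^ i).coeff m = 0 ∨ ∃ n, m = p ^ i * n ∧ (P ^ p ^ i).coeff m = P.coeff n ^ p ^ i := by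
  by_cases hm : p ^ i ∣ m
  · obtain ⟨n, hn⟩ := hm
    exact Or.inr ⟨n, hn, by rw [hn, coeff_pow_mul]⟩
  · left
    have _ : ExpChar Ω p := ExpChar.prime hp.out
    rw [← Polynomial.map_iterateFrobenius_expand p P i, Polynomial.coeff_map,
      Polynomial.coeff_expand (pow_pos hp.out.pos i), if_neg hm, map_zero]

variable [IsAlgClosed Ω]

/-- The elements of `B⟨u⟩ ∩ lim B` which are polynomials in `u ^ p`. -/
theorem exists_add (hk : Ctx0 k v) {A : IntermediateField k Ω} {u : Ω} (hu : TL v A u 0)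
    {f : Polynomial Ω} (hf : f ∈ PI A) (hl : Lim v A 0 (f.eval u))
    (hd : Polynomial.derivative f = 0) :
    ∃ ψ ∈ A, ∃ (e : ℕ) (ζ : ℕ → k), ζ 0 = 0 ∧
      VPos v (f.eval u - (ψ + ∑ i ∈ Finset.range e, algebraMap k Ω (ζ i) * u ^ p ^ i)) := by
  classical
  have hge : ∀ l, 1 ≤ l → v.Ge 0 ((Polynomial.taylor u f).coeff l) := fun l hl1 => by
    have := hu.coeff_ge hf hl hl1
    rwa [mul_zero, sub_zero] at this
  have hpp : ∀ i, 1 ≤ p ^ i := fun i => Nat.one_le_pow _ _ hp.out.pos
  choose ρ hρ using fun i => exists_rs0 hk (hge (p ^ i) (hpp i))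
  obtain ⟨ζ, hζ⟩ : ∃ ζ : ℕ → k, ζ = fun i => if i = 0 then 0 else ρ i := ⟨_, rfl⟩
  obtain ⟨e, he⟩ : ∃ e, e = (Polynomial.taylor u f).natDegree + 1 := ⟨_, rfl⟩
  obtain ⟨f', hf'⟩ : ∃ f' : Polynomial Ω, f' = f - addP p e (fun i => algebraMap k Ω (ζ i)) :=
    ⟨_, rfl⟩
  have hf'm : f' ∈ PI A := by
    rw [hf']
    exact sub_mem hf (addP_mem fun i => A.algebraMap_mem _)
  have hcoef : ∀ l : ℕ, 1 ≤ l → Gt v (0 - l * 0) ((Polynomial.taylor u f').coeff l) := by
    intro l hl1
    rw [mul_zero, sub_zero, hf', map_sub, Polynomial.coeff_sub]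
    by_cases hlp : ∀ i, l ≠ p ^ i
    · have h2 : (Polynomial.taylor u (addP p e fun i => algebraMap k Ω (ζ i))).coeff l = 0 := by
        rw [coeff_taylor_addP p e _ u hl1]
        exact Finset.sum_eq_zero fun i _ => if_neg (hlp i)
      rw [h2, sub_zero]
      have := hu.coeff_gt p hf hl hl1 hlp
      rwa [mul_zero, sub_zero] at this
    · push Not at hlp
      obtain ⟨i, rfl⟩ := hlp
      rw [coeff_taylor_addP_pow]
      split_ifs with h3
      · by_cases hi : i = 0
        · have h4 : (Polynomial.taylor u f).coeff (p ^ i) = 0 := by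
            rw [hi, pow_zero, Polynomial.taylor_coeff_one, hd, Polynomial.eval_zero]
          rw [h4, hζ]
          dsimp only
          rw [if_pos hi, map_zero, sub_zero]
          exact fun h => absurd rfl h
        · rw [hζ]
          dsimp only
          rw [if_neg hi]
          exact hρ i
      · have h5 : i < p ^ i := Nat.lt_pow_self hp.out.one_lt
        rw [Polynomial.coeff_eq_zero_of_natDegree_lt (by omega), sub_zero]
        exact fun h => absurd rfl h
  obtain ⟨δ, hδ, h2⟩ := var_bound' f' u 0 0 hcoef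
  obtain ⟨ψ, hψ, h3⟩ := hu.lim δ hδ
  refine ⟨f'.eval ψ, eval_mem hf'm hψ, e, ζ, by rw [hζ]; dsimp only; rw [if_pos rfl], ?_⟩
  have h4 := h2 ψ h3
  have h5 : f'.eval u = f.eval u - ∑ i ∈ Finset.range e, algebraMap k Ω (ζ i) * u ^ p ^ i := by
    rw [hf', Polynomial.eval_sub, addP_eval]
  rw [h5] at h4
  refine cast (congrArg (VPos v) ?_) h4
  ring

include hp hc in
/-- **`U_1 ∈ B + O_0`.** -/
theorem FrT.nr [Infinite k] (hk : Ctx0 k v) (hF : FrT v W w T U) (hw : TL v W (w 0) 0)
    (hu : TL v (cadj v W (w 0)) (w 1) 0) {q : MvPolynomial (Fin 2) W} (hq : pderiv 1 q = 0)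
    (h : VPos v (U.coeff 1 - aeval w q)) : Nr v (cadj v W (w 0)) 0 (U.coeff 1) := by
  classical
  obtain ⟨B, hB⟩ : ∃ B, B = cadj v W (w 0) := ⟨_, rfl⟩
  have hul := hF.Ul
  rw [← hB] at hu hul ⊢
  have hWB : W ≤ B := hB ▸ le_cadj v W _
  have hwB : w 0 ∈ B := hB ▸ self_mem_cadj v W _
  -- the polynomial in `w 1`
  obtain ⟨g, hg⟩ : ∃ g : Fin 2 → Polynomial Ω, g = ![Polynomial.C (w 0), Polynomial.X] := ⟨_, rfl⟩
  obtain ⟨f, hf⟩ : ∃ f : Polynomial Ω, f = aeval g q := ⟨_, rfl⟩
  have hfe : f.eval (w 1) = aeval w q := by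
    rw [hf, eval_aevalP]
    congr 2
    ext i
    rw [hg]
    fin_cases i
    · exact Polynomial.eval_C
    · exact Polynomial.eval_X
  have hfB : f ∈ PI B := by
    rw [hf]
    refine aevalP_mem hWB (fun i => ?_) q
    rw [hg]
    fin_cases i
    · exact C_mem_PI hwB
    · exact X_mem_PI
  have hfd : Polynomial.derivative f = 0 := by
    rw [hf, derivative_aevalP, hq, map_zero, zero_mul, add_zero, hg]
    change _ * Polynomial.derivative (Polynomial.C (w 0)) = 0
    rw [Polynomial.derivative_C, mul_zero]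
  have hfl : Lim v B 0 (f.eval (w 1)) := by
    intro ε hε
    obtain ⟨b, hb, h1⟩ := hul 1 ε hε
    refine ⟨b, hb, ?_⟩
    rw [hfe, show aeval w q - b = (U.coeff 1 - b) - (U.coeff 1 - aeval w q) by ring]
    exact h1.sub ((VPos.ge h).mono (by linarith))
  obtain ⟨ψ, hψ, e, ζ, hζ0, h1⟩ := exists_add p hk hu hfB hfl hfd
  rw [hfe] at h1
  -- `U_1`
  have h2 : VPos v (U.coeff 1 -
      (ψ + ∑ i ∈ Finset.range e, algebraMap k Ω (ζ i) * w 1 ^ p ^ i)) := by
    have := h.add h1
    rwa [sub_add_sub_cancel] at this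
  -- the relation
  obtain ⟨r, hr, h3⟩ := hw.dense (hB ▸ hψ) 1
  obtain ⟨R, hR⟩ : ∃ R : Polynomial Ω, R = Polynomial.taylor (w 0) r +
      ∑ i ∈ Finset.range e, Polynomial.C (algebraMap k Ω (ζ i)) *
        (Polynomial.C (w 1) + U) ^ p ^ i - Polynomial.derivative U := ⟨_, rfl⟩
  have hRs : ∀ s : k, v.Ge 0 (R.eval (algebraMap k Ω s)) := by
    intro s
    have h4 := hF.law1 hk hw (hB ▸ hu.lim) s
    have h5 := IsoE.ge' (hF.iso ![s, 0]) (VPos.ge h2)
    have h6 := (IsoE.ge' (hF.iso ![s, 0]) h3).mono (zero_le_one)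
    have e1 : T ![s, 0] (r.eval (w 0)) = r.eval (w 0 + algebraMap k Ω s) := by
      rw [Polynomial.eval_eq_sum_range, Polynomial.eval_eq_sum_range, map_sum]
      refine Finset.sum_congr rfl fun i _ => ?_
      rw [map_mul, map_pow, hF.fix _ _ (hr i), hF.Tw]
      rfl
    rw [map_sub, e1] at h6
    rw [map_sub, map_add, map_sum] at h5
    have e2 : ∀ i, T ![s, 0] (algebraMap k Ω (ζ i) * w 1 ^ p ^ i) =
        algebraMap k Ω (ζ i) * (w 1 + U.eval (algebraMap k Ω s)) ^ p ^ i := by
      intro i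
      rw [map_mul, map_pow, AlgHom.commutes, hF.Tu]
      simp
    simp_rw [e2] at h5
    have e3 : R.eval (algebraMap k Ω s) = r.eval (w 0 + algebraMap k Ω s) +
        ∑ i ∈ Finset.range e, algebraMap k Ω (ζ i) * (w 1 + U.eval (algebraMap k Ω s)) ^ p ^ i -
        (Polynomial.derivative U).eval (algebraMap k Ω s) := by
      rw [hR, Polynomial.eval_sub, Polynomial.eval_add, Polynomial.taylor_eval,
        Polynomial.eval_finsetSum, add_comm (algebraMap k Ω s)]
      simp only [Polynomial.eval_mul, Polynomial.eval_C, Polynomial.eval_pow, Polynomial.eval_add]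
    rw [e3]
    have h7 := (h4.sub h5).sub h6
    refine cast (congrArg (v.Ge 0) ?_) h7
    ring
  have hRc : ∀ m, v.Ge 0 (R.coeff m) := pol_ge hk hRs
  have hcm : ∀ m, 1 ≤ m → R.coeff m = (Polynomial.taylor (w 0) r).coeff m +
      ∑ i ∈ Finset.range e, algebraMap k Ω (ζ i) * (U ^ p ^ i).coeff m -
      ((m : Ω) + 1) * U.coeff (m + 1) := by
    intro m hm
    rw [hR, Polynomial.coeff_sub, Polynomial.coeff_add, Polynomial.finsetSum_coeff,
      Polynomial.coeff_derivative, mul_comm (U.coeff (m + 1))]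
    congr 2
    refine Finset.sum_congr rfl fun i _ => ?_
    rw [Polynomial.coeff_C_mul, add_pow_char_pow, Polynomial.coeff_add, ← Polynomial.C_pow,
      Polynomial.coeff_C_of_ne_zero (by omega), zero_add]
  by_cases hζ : ∀ i ∈ Finset.range e, ζ i = 0
  · -- no noise
    rw [Finset.sum_eq_zero (fun i hi => by rw [hζ i hi, map_zero, zero_mul]), add_zero] at h2
    exact ⟨ψ, hψ, VPos.ge h2⟩
  · exfalso
    push Not at hζ
    obtain ⟨i₀, hi₀, hi₀m⟩ : ∃ i₀, (i₀ < e ∧ ζ i₀ ≠ 0) ∧ ∀ i, i₀ < i → i < e → ζ i = 0 := by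
      obtain ⟨S, hS⟩ : ∃ S : Finset ℕ, S = (Finset.range e).filter (fun i => ζ i ≠ 0) := ⟨_, rfl⟩
      have hne : S.Nonempty := by
        obtain ⟨i, hi, hi'⟩ := hζ
        exact ⟨i, by rw [hS, Finset.mem_filter]; exact ⟨hi, hi'⟩⟩
      have hmem' := (Finset.ext_iff.1 hS _).1 (S.max'_mem hne)
      rw [Finset.mem_filter, Finset.mem_range] at hmem'
      refine ⟨S.max' hne, hmem', fun i h1 h2 => ?_⟩
      by_contra h3
      have h4 : i ∈ S := by
        rw [hS, Finset.mem_filter, Finset.mem_range]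
        exact ⟨h2, h3⟩
      exact absurd (S.le_max' i h4) (not_le.2 h1)
    have hi₀0 : i₀ ≠ 0 := by
      rintro rfl
      exact hi₀.2 hζ0
    -- all the `U_j` are torsion
    have key : ∀ n j, 1 ≤ j → U.natDegree < j + n → U.coeff j ∈ Tor p hk B := by
      intro n
      induction n with
      | zero =>
        intro j _ hj
        rw [Polynomial.coeff_eq_zero_of_natDegree_lt (by omega)]
        exact zero_mem _
      | succ n ih =>
        intro j hj hjn
        have hIH : ∀ j', j < j' → U.coeff j' ∈ Tor p hk B := fun j' hj' => ih j' (by omega) (by omega)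
        have hpi : 1 ≤ p ^ i₀ := Nat.one_le_pow _ _ hp.out.pos
        obtain ⟨m, hm⟩ : ∃ m, m = p ^ i₀ * j := ⟨_, rfl⟩
        have hjm : j ≤ m := by
          rw [hm]
          exact Nat.le_mul_of_pos_left j hpi
        have h4 := hcm m (by omega)
        rw [← Finset.add_sum_erase _ _ (Finset.mem_range.2 hi₀.1), hm, coeff_pow_mul p U i₀ j,
          ← hm] at h4
        have h5 : algebraMap k Ω (ζ i₀) * U.coeff j ^ p ^ i₀ ∈ Tor p hk B := by
          have e1 : algebraMap k Ω (ζ i₀) * U.coeff j ^ p ^ i₀ =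
              R.coeff m - (Polynomial.taylor (w 0) r).coeff m -
                ∑ i ∈ (Finset.range e).erase i₀, algebraMap k Ω (ζ i) * (U ^ p ^ i).coeff m +
                ((m : Ω) + 1) * U.coeff (m + 1) := by
            rw [h4]
            ring
          rw [e1]
          refine add_mem (sub_mem (sub_mem (Tor.of_ge (hRc m)) (Tor.of_mem ?_))
            (sum_mem fun i hi => ?_)) ?_
          · exact taylor_mem_PI (PI_mono hWB hr) hwB m
          · rw [Finset.mem_erase, Finset.mem_range] at hi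
            rcases lt_or_gt_of_ne hi.1 with h6 | h6
            · rw [← Algebra.smul_def]
              refine Submodule.smul_mem _ _ ?_
              rcases coeff_pow_or p U i m with h7 | ⟨n', h7, h8⟩
              · rw [h7]
                exact zero_mem _
              · rw [h8]
                refine Tor.pow i (hIH n' ?_)
                have h9 : p ^ i * (p ^ (i₀ - i) * j) = p ^ i * n' := by
                  rw [← h7, hm, ← mul_assoc, ← pow_add, Nat.add_sub_cancel' h6.le]
                have h10 := Nat.eq_of_mul_eq_mul_left (pow_pos hp.out.pos i) h9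
                rw [← h10]
                have h11 : 1 < p ^ (i₀ - i) := Nat.one_lt_pow (by omega) hp.out.one_lt
                exact (Nat.lt_mul_iff_one_lt_left (by omega)).2 h11
            · rw [hi₀m i h6 hi.2, map_zero, zero_mul]
              exact zero_mem _
          · have e2 : ((m : Ω) + 1) * U.coeff (m + 1) = (m + 1) • U.coeff (m + 1) := by
              rw [nsmul_eq_mul]
              push_cast
              ring
            rw [e2]
            exact nsmul_mem (hIH _ (by omega)) _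
        have h6 : U.coeff j ^ p ^ i₀ ∈ Tor p hk B := by
          have h7 := Submodule.smul_mem _ (ζ i₀)⁻¹ h5
          rwa [Algebra.smul_def, ← mul_assoc, ← map_mul, inv_mul_cancel₀ hi₀.2, map_one,
            one_mul] at h7
        exact Tor.of_pow h6
    have h4 := key U.natDegree 1 le_rfl (by omega)
    have h5 : ∑ i ∈ Finset.range e, algebraMap k Ω (ζ i) * w 1 ^ p ^ i ∈ Tor p hk B := by
      have e1 : ∑ i ∈ Finset.range e, algebraMap k Ω (ζ i) * w 1 ^ p ^ i = U.coeff 1 - ψ -
          (U.coeff 1 - (ψ + ∑ i ∈ Finset.range e, algebraMap k Ω (ζ i) * w 1 ^ p ^ i)) := by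
        ring
      rw [e1]
      exact sub_mem (sub_mem h4 (Tor.of_mem hψ)) (Tor.of_ge (VPos.ge h2))
    exact not_tor hu hi₀.1 hi₀.2 h5

end Pool.Agent.TWCU
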