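import Pool.Agent.Lib.TWCU.NFe

/-!
# The normal form, `e = 0` (row R10)

`nf0`: the tie `a = x P(z) + a₀`; after `w 1 ↦ w 1 - c(w 0)`, `c` a polynomial over `W`:
`a₀ = P(w 0, w 1 - c(w 0))`, `P` over `W`, the exponents of `P` are divisible by `p` up to a linear form
`l` over `k`; if `l 1 ≠ 0`, the coefficients of the shape of `w 1 - c(w 0)` whose index is not divisible
by `p` are in `O_0`.
-/

set_option autoImplicit false

open MvPolynomial

namespace Pool.Agent.TWCU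

open Pool.Agent.H15JM (RVal)
open Pool.Agent.LU1 (VPos)
open Pool.Agent.D2 (Ctx0)
open Pool.Agent.TWM
open Pool.Agent.TWS (IsoE SphC)
open Pool.Agent.TWLY
open Pool.Agent.TWCY

universe u

variable {k Ω : Type u} [Field k] [Field Ω] [Algebra k Ω] {v : RVal Ω}
  {W : IntermediateField k Ω} {w : Fin 2 → Ω} {T : (Fin 2 → k) → Ω →ₐ[k] Ω} {U : Polynomial Ω}
  {p : ℕ} [hp : Fact p.Prime] [CharP Ω p]

omit [Field k] [Algebra k Ω] in
/-- `p`-th powers have exponents divisible by `p`. -/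
theorem coeff_pow_p' (P : Polynomial Ω) {n j : ℕ} (hj : ¬ p ∣ j) : (P ^ (p * n)).coeff j = 0 := by
  rw [mul_comm, pow_mul]
  rcases coeff_pow_or p (P ^ n) 1 j with h | ⟨m, h, -⟩
  · rwa [pow_one] at h
  · exact absurd ⟨m, by rwa [pow_one] at h⟩ hj

theorem coeff_aevalP_pdv {q : MvPolynomial (Fin 2) W} (hq : PDv p q) (g : Fin 2 → Polynomial Ω)
    {j : ℕ} (hj : ¬ p ∣ j) : (aeval g q : Polynomial Ω).coeff j = 0 := by
  rw [q.as_sum, map_sum, Polynomial.finsetSum_coeff]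
  refine Finset.sum_eq_zero fun m hm => ?_
  have hd : ∀ i, p ∣ m i := fun i => by
    by_contra h
    exact (mem_support_iff.1 hm) (hq m i h)
  choose n hn using hd
  rw [aeval_monomial, Finsupp.prod_fintype _ _ (fun _ => pow_zero _), Fin.prod_univ_two, hn 0, hn 1]
  change (Polynomial.C ((coeff m q : W) : Ω) * (g 0 ^ (p * n 0) * g 1 ^ (p * n 1))).coeff j = 0
  rw [Polynomial.coeff_C_mul]
  have e : g 0 ^ (p * n 0) * g 1 ^ (p * n 1) = (g 0 ^ n 0 * g 1 ^ n 1) ^ (p * 1) := by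
    rw [mul_one, mul_pow, ← pow_mul, ← pow_mul, mul_comm p, mul_comm p]
  rw [e, coeff_pow_p' _ hj, mul_zero]

omit hp [CharP Ω p] in
theorem pderiv_PP' [CharP W p] {κ : ℕ → k} {t : ℕ} (i : Fin 2) (q : MvPolynomial (Fin 2) W) :
    pderiv i (PP p κ t q) = 0 := by
  unfold PP
  rw [map_sum]
  refine Finset.sum_eq_zero fun j _ => ?_
  rw [IsScalarTower.algebraMap_apply k W (MvPolynomial (Fin 2) W), algebraMap_eq, pderiv_C_mul,
    pderiv_pow]
  have : ((p ^ (j + 1) : ℕ) : MvPolynomial (Fin 2) W) = 0 := by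
    rw [CharP.cast_eq_zero_iff (MvPolynomial (Fin 2) W) p]
    exact dvd_pow_self p (Nat.succ_ne_zero j)
  rw [this, zero_mul, zero_mul, mul_zero]

omit hp [CharP Ω p] in
theorem pderiv_pow_p [CharP W p] (i : Fin 2) (q : MvPolynomial (Fin 2) W) :
    pderiv i (q ^ p) = 0 := by
  rw [pderiv_pow, CharP.cast_eq_zero, zero_mul, zero_mul]

theorem coeff_PP' {κ : ℕ → k} {t : ℕ} (P : Polynomial Ω) {j : ℕ} (hj : ¬ p ∣ j) :
    (PP p κ t P).coeff j = 0 := by
  unfold PP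
  rw [Polynomial.finsetSum_coeff]
  refine Finset.sum_eq_zero fun i _ => ?_
  rw [IsScalarTower.algebraMap_apply k Ω (Polynomial Ω), Polynomial.algebraMap_eq,
    Polynomial.coeff_C_mul, pow_succ', coeff_pow_p' _ hj, mul_zero]

omit [CharP Ω p] in
theorem ge_PP0 (hk : Ctx0 k v) {κ : ℕ → k} {t : ℕ} {b : ℝ} (hb : 0 ≤ b) {y : Ω} (hy : v.Ge b y) :
    v.Ge b (PP p κ t y) := by
  unfold PP
  refine RVal.Ge.sum _ _ fun i _ => ?_
  have h1 := (hk.ge (κ i)).mul (TWM.ge_pow hy (p ^ (i + 1)))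
  refine h1.mono ?_
  have h2 : (1 : ℝ) ≤ (p ^ (i + 1) : ℕ) := by
    exact_mod_cast Nat.one_le_pow _ _ hp.out.pos
  nlinarith

variable [IsAlgClosed Ω]

theorem nf0 [Infinite k] (hk : Ctx0 k v) (hF : FrT v W w T U) (hw : TL v W (w 0) 0)
    (hu : TL v (cadj v W (w 0)) (w 1) 0) {x z a₀ : Ω} {κ : ℕ → k} {t : ℕ} (hx : x ∈ W)
    (ha : a₀ ∈ cadj v (cadj v W (w 0)) (w 1))
    (tie : ∀ ε : ℝ, 0 < ε → ∃ θ ∈ cadj v (cadj v W (w 0)) (w 1), v.Ge (-ε) (z - θ) ∧
      ∃ h ∈ cadj v (cadj v W (w 0)) (w 1), v.Ge (-ε) (x * PP p κ t θ + a₀ - h ^ p)) :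
    ∃ (c : Polynomial Ω) (l : Fin 2 → k) (P : MvPolynomial (Fin 2) Ω), c ∈ PI W ∧
      (l 1 = 0 → c = 0) ∧ (∀ g, coeff g P ∈ W) ∧
      (∀ g, ¬ (∀ i, p ∣ g i) → coeff g P =
        coeff g (∑ i, C (algebraMap k Ω (l i)) * X i : MvPolynomial (Fin 2) Ω)) ∧
      VPos v (a₀ - eval ![w 0, w 1 - c.eval (w 0)] P) ∧
      (l 1 ≠ 0 → ∀ j, ¬ p ∣ j → v.Ge 0
        ((U - (Polynomial.taylor (w 0) c - Polynomial.C (c.eval (w 0)))).coeff j)) := by
  classical
  have hchW : CharP W p := (W.val : W →+* Ω).charP W.val.injective p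
  have hPl := hF.pl hk hw hu
  obtain ⟨q, hq⟩ := exists_pol_near hw hu ha 1
  -- the tie by polynomials
  have htie : ∀ ε : ℝ, 0 < ε → ∃ θ h : MvPolynomial (Fin 2) W,
      v.Ge (-ε) (aeval w (C (⟨x, hx⟩ : W) * PP p κ t θ + q - h ^ p)) := by
    intro ε hε
    obtain ⟨θ, hθ, -, h, hh, h1⟩ := tie ε hε
    obtain ⟨qθ, h2⟩ := exists_pol_near hw hu hθ (max 0 (-v x))
    obtain ⟨qh, h3⟩ := exists_pol_near hw hu hh 0
    refine ⟨qθ, qh, ?_⟩
    have e1 : aeval w (PP p κ t qθ) = PP p κ t (aeval w qθ : Ω) :=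
      PP_map ((aeval w : MvPolynomial (Fin 2) W →ₐ[W] Ω).restrictScalars k) qθ
    rw [map_sub, map_add, map_mul, map_pow, aeval_C, e1]
    change v.Ge (-ε) (x * PP p κ t (aeval w qθ) + aeval w q - aeval w qh ^ p)
    have h4 : v.Ge 0 (x * PP p κ t (θ - aeval w qθ)) := by
      have h5 := (RVal.ge_self (v := v) x).mul (ge_PP0 (p := p) (κ := κ) (t := t) hk
        (le_max_left 0 (-v x)) h2)
      exact h5.mono (by linarith [le_max_right 0 (-v x)])
    rw [PP_sub] at h4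
    have h6 : v.Ge 0 ((h - aeval w qh) ^ p) := by
      have := TWM.ge_pow h3 p
      rwa [mul_zero] at this
    rw [sub_pow_char] at h6
    have h7 := ((h1.sub (h4.mono (by linarith : -ε ≤ 0))).sub (hq.mono (by linarith : -ε ≤ 1))).add
      (h6.mono (by linarith : -ε ≤ 0))
    refine cast (congrArg (v.Ge (-ε)) ?_) h7
    ring
  -- the derivations
  have hF1 : v.Ge 0 (aeval w (pderiv 1 q)) := by
    refine ge_zero_of_eps fun ε hε => ?_
    obtain ⟨θ, h, h1⟩ := htie ε hε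
    have h2 := hPl.n1 _ _ h1
    rwa [map_sub, map_add, pderiv_C_mul, pderiv_PP', pderiv_pow_p, mul_zero, zero_add,
      sub_zero] at h2
  have hF2 : ∀ j, ¬ p ∣ j → v.Ge 0 ((aeval (g0 w U) q : Polynomial Ω).coeff j) := by
    intro j hj
    refine ge_zero_of_eps fun ε hε => ?_
    obtain ⟨θ, h, h1⟩ := htie ε hε
    have h2 := hF.ge_g0 hk h1 j
    have e1 : aeval (g0 w U) (PP p κ t θ) = PP p κ t (aeval (g0 w U) θ : Polynomial Ω) :=
      PP_map ((aeval (g0 w U) : MvPolynomial (Fin 2) W →ₐ[W] Polynomial Ω).restrictScalars k) θ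
    rw [map_sub, map_add, map_mul, map_pow, aeval_C, e1] at h2
    have e2 : (algebraMap W (Polynomial Ω) ⟨x, hx⟩ * PP p κ t (aeval (g0 w U) θ) +
        aeval (g0 w U) q - aeval (g0 w U) h ^ p : Polynomial Ω).coeff j =
        (aeval (g0 w U) q : Polynomial Ω).coeff j := by
      change (Polynomial.C x * PP p κ t (aeval (g0 w U) θ) +
        aeval (g0 w U) q - aeval (g0 w U) h ^ p : Polynomial Ω).coeff j = _
      have e3 := coeff_pow_p' (p := p) (aeval (g0 w U) h : Polynomial Ω) (n := 1) hj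
      rw [mul_one] at e3
      rw [Polynomial.coeff_sub, Polynomial.coeff_add, Polynomial.coeff_C_mul, coeff_PP' _ hj, e3]
      ring
    rwa [e2] at h2
  have hF0 : v.Ge 0 (aeval w (pderiv 0 q) + U.coeff 1 * aeval w (pderiv 1 q)) := by
    rw [← hF.coeff_one_g0]
    exact hF2 1 (fun h => hp.out.one_lt.ne' (Nat.dvd_one.1 h))
  obtain ⟨ρ₀, ρ₁, q₁, hq₁, h1, h2⟩ := hPl.partA p hk hF1 hF0
  -- `U_1`
  have hU : ρ₁ = 0 ∨ Nr v (cadj v W (w 0)) 0 (U.coeff 1) := by
    by_cases hρ : ρ₁ = 0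
    · exact Or.inl hρ
    · refine Or.inr (hF.nr p hk hw hu
        (q := C (algebraMap k W ρ₁⁻¹) * (C (algebraMap k W ρ₀) - pderiv 0 q₁)) ?_ ?_)
      · rw [pderiv_C_mul, map_sub, pderiv_C, pderiv_comm', hq₁, map_zero, sub_zero, mul_zero]
      · have h3 := VPos.mul' (hk.ge ρ₁⁻¹) h2
        rw [map_mul, map_sub, aeval_C, aeval_C]
        change VPos v (U.coeff 1 - algebraMap k Ω ρ₁⁻¹ * (algebraMap k Ω ρ₀ - aeval w (pderiv 0 q₁)))
        have e : algebraMap k Ω ρ₁⁻¹ * (aeval w (pderiv 0 q₁) + algebraMap k Ω ρ₁ * U.coeff 1 -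
            algebraMap k Ω ρ₀) = U.coeff 1 -
            algebraMap k Ω ρ₁⁻¹ * (algebraMap k Ω ρ₀ - aeval w (pderiv 0 q₁)) := by
          have e1 : algebraMap k Ω ρ₁⁻¹ * algebraMap k Ω ρ₁ = 1 := by
            rw [← map_mul, inv_mul_cancel₀ hρ, map_one]
          linear_combination (U.coeff 1) * e1
        rwa [e] at h3
  obtain ⟨c', q₂, hc', hc0, hq₂, h3⟩ := hPl.partB hk hq₁ h2 hU
  -- the polynomial `c`
  obtain ⟨r, hr⟩ : ∃ r : Polynomial W, Polynomial.aeval (X 0 : MvPolynomial (Fin 2) W) r = c' := by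
    unfold Fst at hc'
    rw [Algebra.adjoin_singleton_eq_range_aeval] at hc'
    exact hc'
  obtain ⟨c, hc⟩ : ∃ c : Polynomial Ω, c = if ρ₁ = 0 then 0 else r.map (algebraMap W Ω) := ⟨_, rfl⟩
  have hcr : ρ₁ ≠ 0 → c = r.map (algebraMap W Ω) := fun h => by rw [hc, if_neg h]
  have hce : ∀ y : Fin 2 → Ω, y 0 = w 0 → algebraMap k Ω ρ₁ * c.eval (w 0) =
      algebraMap k Ω ρ₁ * aeval y c' := by
    intro y hy
    by_cases hρ : ρ₁ = 0
    · rw [hρ, map_zero, zero_mul, zero_mul]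
    · rw [hcr hρ, ← hr, Polynomial.eval_map_algebraMap, ← Polynomial.aeval_algHom_apply, aeval_X,
        hy]
  have hcW : c ∈ PI W := by
    intro i
    rw [hc]
    split_ifs
    · rw [Polynomial.coeff_zero]
      exact zero_mem _
    · rw [Polynomial.coeff_map]
      exact (r.coeff i).2
  obtain ⟨l, hl⟩ : ∃ l : Fin 2 → k, l = ![ρ₀, ρ₁] := ⟨_, rfl⟩
  have hl0 : l 0 = ρ₀ := by rw [hl]; rfl
  have hl1 : l 1 = ρ₁ := by rw [hl]; rfl
  obtain ⟨A, hA⟩ : ∃ A : MvPolynomial (Fin 2) W, A = bind₁ ![X 0, X 1 + (if ρ₁ = 0 then 0 else c')] q₂ :=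
    ⟨_, rfl⟩
  have hAd : PDv p A := hA ▸ PDv.bind hq₂ _
  obtain ⟨y, hy⟩ : ∃ y : Fin 2 → Ω, y = ![w 0, w 1 - c.eval (w 0)] := ⟨_, rfl⟩
  have hy0 : y 0 = w 0 := by rw [hy]; rfl
  have hy1 : y 1 = w 1 - c.eval (w 0) := by rw [hy]; rfl
  have hyc : c.eval (w 0) = aeval y (if ρ₁ = 0 then 0 else c') := by
    split_ifs with hρ
    · rw [hc, if_pos hρ, Polynomial.eval_zero, map_zero]
    · rw [hcr hρ, ← hr, Polynomial.eval_map_algebraMap, ← Polynomial.aeval_algHom_apply, aeval_X,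
        hy0]
  have hAe : aeval y A = aeval w q₂ := by
    rw [hA, aeval_bind₁]
    congr 2
    ext i
    fin_cases i
    · change aeval y (X 0 : MvPolynomial (Fin 2) W) = w 0
      rw [aeval_X, hy0]
    · change aeval y (X 1 + (if ρ₁ = 0 then 0 else c') : MvPolynomial (Fin 2) W) = w 1
      rw [map_add, aeval_X, hy1, ← hyc]
      ring
  refine ⟨c, l, up A + ∑ i, C (algebraMap k Ω (l i)) * X i, hcW, ?_, ?_, ?_, ?_, ?_⟩
  · intro h
    rw [hl1] at h
    rw [hc, if_pos h]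
  · intro g
    rw [coeff_add, coeff_up]
    refine add_mem (coeff g A).2 ?_
    rw [coeff_sum]
    refine sum_mem fun i _ => ?_
    rw [coeff_C_mul, coeff_X]
    split_ifs
    · exact mul_mem (W.algebraMap_mem _) (one_mem _)
    · exact mul_mem (W.algebraMap_mem _) (zero_mem _)
  · intro g hg
    push Not at hg
    obtain ⟨i, hi⟩ := hg
    rw [coeff_add, coeff_up, hAd g i hi, ZeroMemClass.coe_zero, zero_add]
  · rw [← hy]
    have e : a₀ - eval y (up A + ∑ i, C (algebraMap k Ω (l i)) * X i) = (a₀ - aeval w q) -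
        (aeval w q₁ + algebraMap k Ω ρ₁ * w 1 - aeval w q) -
        (aeval w q₂ + algebraMap k Ω ρ₀ * w 0 - algebraMap k Ω ρ₁ * aeval w c' - aeval w q₁) := by
      rw [map_add, eval_up, hAe, Fin.sum_univ_two, map_add, map_mul, map_mul, eval_C, eval_C,
        eval_X, eval_X, hl0, hl1, hy0, hy1, mul_sub, hce w rfl]
      ring
    rw [e]
    have h4 := ((vpos_of_ge one_pos hq).sub h1).sub h3
    exact h4
  · intro h j hj
    rw [hl1] at h
    have hj0 : j ≠ 0 := by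
      rintro rfl
      exact hj (dvd_zero p)
    -- the normal form, translated
    obtain ⟨Q, hQ⟩ : ∃ Q : MvPolynomial (Fin 2) W, Q = q₂ + C (algebraMap k W ρ₀) * X 0 +
        C (algebraMap k W ρ₁) * (X 1 - c') - q := ⟨_, rfl⟩
    have h4 : v.Ge 0 (aeval w Q) := by
      have h5 := VPos.ge (h1.add h3)
      rw [hQ]
      simp only [map_sub, map_add, map_mul, aeval_C, aeval_X]
      change v.Ge 0 (aeval w q₂ + algebraMap k Ω ρ₀ * w 0 +
        algebraMap k Ω ρ₁ * (w 1 - aeval w c') - aeval w q)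
      refine cast (congrArg (v.Ge 0) ?_) h5
      ring
    have h5 := (hF.ge_g0 hk h4 j).add (hF2 j hj)
    have e1 : (aeval (g0 w U) c' : Polynomial Ω) = Polynomial.taylor (w 0) c := by
      rw [hcr h, ← hr, ← Polynomial.aeval_algHom_apply, aeval_X, Polynomial.taylor_apply,
        Polynomial.comp, Polynomial.eval₂_map, Polynomial.aeval_def, add_comm Polynomial.X]
      rfl
    have e2 : (aeval (g0 w U) Q : Polynomial Ω).coeff j + (aeval (g0 w U) q : Polynomial Ω).coeff j =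
        algebraMap k Ω ρ₀ * (Polynomial.X : Polynomial Ω).coeff j + algebraMap k Ω ρ₁ *
          (U - (Polynomial.taylor (w 0) c - Polynomial.C (c.eval (w 0)))).coeff j := by
      rw [hQ]
      simp only [map_sub, map_add, map_mul, aeval_C, aeval_X]
      change (aeval (g0 w U) q₂ + Polynomial.C (algebraMap k Ω ρ₀) *
        (Polynomial.C (w 0) + Polynomial.X) + Polynomial.C (algebraMap k Ω ρ₁) *
          (Polynomial.C (w 1) + U - aeval (g0 w U) c') - aeval (g0 w U) q : Polynomial Ω).coeff j +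
          _ = _
      rw [e1]
      simp only [Polynomial.coeff_sub, Polynomial.coeff_add, Polynomial.coeff_C_mul,
        Polynomial.coeff_C_of_ne_zero hj0]
      rw [coeff_aevalP_pdv hq₂ _ hj]
      ring
    rw [e2] at h5
    have h6 : v.Ge 0 (algebraMap k Ω ρ₀ * (Polynomial.X : Polynomial Ω).coeff j) := by
      have h7 : v.Ge 0 ((Polynomial.X : Polynomial Ω).coeff j) := by
        rw [Polynomial.coeff_X]
        split_ifs
        · have := hk.ge (1 : k)
          rwa [map_one] at this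
        · exact fun h => absurd rfl h
      have := (hk.ge ρ₀).mul h7
      rwa [add_zero] at this
    have h7 := (hk.ge ρ₁⁻¹).mul (h5.sub h6)
    rw [add_sub_cancel_left, ← mul_assoc, ← map_mul, inv_mul_cancel₀ h, map_one, one_mul,
      add_zero] at h7
    exact h7

end Pool.Agent.TWCU
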